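import Pool.Agent.W214.RK2.Desc4
import Pool.Agent.TH867.SQ.Pairs
import Pool.Agent.TH867.QF.Basic

set_option autoImplicit false

/-!
# The rank is bounded by the number of the primes of bad reduction
-/

namespace Pool.Agent.H82.RO

open Finset Pool.Agent.W262.RK
open Pool.Agent.TH867.SQ (lr log_nn)
open Pool.Agent.TH867.QF (Fm va ev Pt)

lemma sum_biUnion_le {ι α : Type*} [DecidableEq α] [DecidableEq ι] (s : Finset ι)
    (t : ι → Finset α) (f : α → ℝ) (hf : ∀ a, 0 ≤ f a) :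
    ∑ a ∈ s.biUnion t, f a ≤ ∑ i ∈ s, ∑ a ∈ t i, f a := by
  induction s using Finset.induction_on with
  | empty => simp
  | insert i s hi ih =>
    rw [biUnion_insert, sum_insert hi]
    have h := sum_union_inter (s₁ := t i) (s₂ := s.biUnion t) (f := f)
    have h2 : 0 ≤ ∑ a ∈ t i ∩ s.biUnion t, f a := sum_nonneg fun a _ => hf a
    linarith

theorem rank_le {A B : ℤ} (hA : A ≠ 0) (hB : B ≠ 0) (hAB : A ≠ B) :
    2 ^ Module.finrank ℤ (EAB A B).toAffine.Point ≤
      4 ^ ((2 * A * B * (A - B)).natAbs.primeFactors.card + 2) := by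
  classical
  have h := Pool.Agent.W214.RK2.desc4 1 (fun _ _ _ _ _ => True) A B hA hB hAB (by decide)
    squarefree_one (fun p _ _ => ⟨trivial, fun _ _ _ _ _ _ _ _ _ _ => trivial⟩)
    (fun _ _ _ _ _ _ _ _ _ _ _ _ _ => trivial)
  have h1 : NL 1 (fun _ _ _ _ _ => True) = 1 := by
    unfold NL
    simp
  rw [h1, mul_one] at h
  refine h.trans (Nat.pow_le_pow_right (by norm_num) ?_)
  exact Nat.add_le_add_right (card_le_card (filter_subset _ _)) 2

/-- `4 ^ ω` is at most a small power of the radical -/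
theorem four_pow_le (ε : ℝ) (hε : 0 < ε) : ∃ C : ℝ, 0 < C ∧ ∀ S : Finset ℕ, (∀ p ∈ S, p.Prime) →
    (4 : ℝ) ^ S.card ≤ C * Real.exp (ε * ∑ p ∈ S, Real.log (p : ℝ)) := by
  classical
  obtain ⟨P0, hP0⟩ : ∃ P0 : ℕ, Real.log 4 / ε ≤ Real.log P0 ∧ 0 < P0 := by
    obtain ⟨n, hn⟩ := exists_nat_ge (Real.exp (Real.log 4 / ε))
    refine ⟨n, ?_, ?_⟩
    · rw [← Real.log_exp (Real.log 4 / ε)]
      exact Real.log_le_log (Real.exp_pos _) hn
    · have : (0 : ℝ) < n := lt_of_lt_of_le (Real.exp_pos _) hn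
      exact_mod_cast this
  refine ⟨4 ^ P0, by positivity, fun S hS => ?_⟩
  have h1 : ∀ p ∈ S, (4 : ℝ) ≤ (if p < P0 then 4 else 1) * Real.exp (ε * Real.log (p : ℝ)) := by
    intro p hp
    have hl : 0 ≤ Real.log (p : ℝ) := log_nn p
    split_ifs with h
    · have : 1 ≤ Real.exp (ε * Real.log (p : ℝ)) := Real.one_le_exp (by positivity)
      linarith
    · rw [one_mul]
      have h2 : Real.log P0 ≤ Real.log (p : ℝ) :=
        Real.log_le_log (by exact_mod_cast hP0.2) (by exact_mod_cast not_lt.1 h)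
      have h3 : Real.log 4 ≤ ε * Real.log (p : ℝ) := by
        have := hP0.1
        rw [div_le_iff₀ hε] at this
        nlinarith
      calc (4 : ℝ) = Real.exp (Real.log 4) := (Real.exp_log (by norm_num)).symm
        _ ≤ _ := Real.exp_le_exp.2 h3
  calc (4 : ℝ) ^ S.card = ∏ _p ∈ S, (4 : ℝ) := by rw [prod_const]
    _ ≤ ∏ p ∈ S, ((if p < P0 then 4 else 1) * Real.exp (ε * Real.log (p : ℝ))) :=
        prod_le_prod (fun _ _ => by norm_num) h1
    _ = (∏ p ∈ S, (if p < P0 then (4 : ℝ) else 1)) *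
        Real.exp (ε * ∑ p ∈ S, Real.log (p : ℝ)) := by
        rw [prod_mul_distrib, ← Real.exp_sum, mul_sum]
    _ ≤ 4 ^ P0 * Real.exp (ε * ∑ p ∈ S, Real.log (p : ℝ)) := by
        refine mul_le_mul_of_nonneg_right ?_ (Real.exp_pos _).le
        rw [prod_ite, prod_const, prod_const_one, mul_one]
        refine pow_le_pow_right₀ (by norm_num) ?_
        calc (S.filter (fun p => p < P0)).card ≤ (range P0).card := by
              refine card_le_card fun p hp => ?_
              exact mem_range.2 (mem_filter.1 hp).2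
          _ = P0 := card_range _

/-- **The pointwise bound.** -/
theorem rank_point {r : ℕ} (L : Fm r) (μ : Fin r → ℕ) (M N : ℤ → ℤ → ℤ)
    (hprod : ∀ P : ℤ × ℤ, M P.1 P.2 * N P.1 P.2 * (M P.1 P.2 - N P.1 P.2) =
      ∏ i, ev L P i ^ μ i) (ε : ℝ) (hε : 0 < ε) :
    ∃ C : ℝ, 0 < C ∧ ∀ P : ℤ × ℤ, Pt L P →
      (2 : ℝ) ^ Module.finrank ℤ (EAB (-(M P.1 P.2)) (-(N P.1 P.2))).toAffine.Point ≤
        C * Real.exp (ε * ∑ i, lr (va L P i)) := by
  classical
  obtain ⟨C, hC, h4⟩ := four_pow_le ε hε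
  refine ⟨64 * C, by positivity, fun P hP => ?_⟩
  have hne : M P.1 P.2 * N P.1 P.2 * (M P.1 P.2 - N P.1 P.2) ≠ 0 := by
    rw [hprod]
    exact prod_ne_zero_iff.2 fun i _ => pow_ne_zero _ (hP.ne i)
  have hM : M P.1 P.2 ≠ 0 := by
    intro h; apply hne; rw [h]; ring
  have hN : N P.1 P.2 ≠ 0 := by
    intro h; apply hne; rw [h]; ring
  have hMN : M P.1 P.2 ≠ N P.1 P.2 := by
    intro h; apply hne; rw [h]; ring
  have h1 := rank_le (neg_ne_zero.2 hM) (neg_ne_zero.2 hN) (fun h => hMN (neg_injective h))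
  obtain ⟨S, hS⟩ : ∃ S : Finset ℕ, S = univ.biUnion (fun i => (va L P i).primeFactors) := ⟨_, rfl⟩
  have hsub : (2 * -(M P.1 P.2) * -(N P.1 P.2) *
      (-(M P.1 P.2) - -(N P.1 P.2))).natAbs.primeFactors ⊆ insert 2 S := by
    intro p hp
    have hpp := Nat.prime_of_mem_primeFactors hp
    have hd := Nat.dvd_of_mem_primeFactors hp
    have hpi : Prime (p : ℤ) := Nat.prime_iff_prime_int.1 hpp
    have e : 2 * -(M P.1 P.2) * -(N P.1 P.2) * (-(M P.1 P.2) - -(N P.1 P.2)) =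
        -2 * ∏ i, ev L P i ^ μ i := by
      rw [← hprod]
      ring
    rw [e, ← Int.natCast_dvd] at hd
    rw [mem_insert, hS, mem_biUnion]
    rcases hpi.dvd_or_dvd hd with h | h
    · left
      have h2 : (p : ℤ) ∣ 2 := by rwa [dvd_neg] at h
      have h3 : p ∣ 2 := by exact_mod_cast h2
      exact (Nat.prime_dvd_prime_iff_eq hpp Nat.prime_two).1 h3
    · right
      obtain ⟨i, -, hi⟩ := (hpi.dvd_finsetProd_iff _).1 h
      refine ⟨i, mem_univ i, Nat.mem_primeFactors.2 ⟨hpp, ?_, ?_⟩⟩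
      · exact Int.natCast_dvd.1 (hpi.dvd_of_dvd_pow hi)
      · exact Int.natAbs_ne_zero.2 (hP.ne i)
  have h2 := card_le_card hsub
  have h3 := card_insert_le 2 S
  have h5 : (4 : ℝ) ^ S.card ≤ C * Real.exp (ε * ∑ p ∈ S, Real.log (p : ℝ)) := by
    refine h4 S fun p hp => ?_
    rw [hS, mem_biUnion] at hp
    obtain ⟨i, -, hi⟩ := hp
    exact Nat.prime_of_mem_primeFactors hi
  have h6 : ∑ p ∈ S, Real.log (p : ℝ) ≤ ∑ i, lr (va L P i) := by
    rw [hS]
    unfold lr
    exact sum_biUnion_le univ (fun i => (va L P i).primeFactors) (fun p : ℕ => Real.log (p : ℝ))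
      fun p => log_nn p
  calc (2 : ℝ) ^ Module.finrank ℤ (EAB (-(M P.1 P.2)) (-(N P.1 P.2))).toAffine.Point
      ≤ 4 ^ ((2 * -(M P.1 P.2) * -(N P.1 P.2) *
        (-(M P.1 P.2) - -(N P.1 P.2))).natAbs.primeFactors.card + 2) := by exact_mod_cast h1
    _ ≤ 4 ^ (S.card + 3) := pow_le_pow_right₀ (by norm_num) (by omega)
    _ = 64 * 4 ^ S.card := by rw [pow_add]; norm_num; ring
    _ ≤ 64 * (C * Real.exp (ε * ∑ p ∈ S, Real.log (p : ℝ))) := by linarith
    _ ≤ 64 * (C * Real.exp (ε * ∑ i, lr (va L P i))) := by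
        have := Real.exp_le_exp.2 (mul_le_mul_of_nonneg_left h6 hε.le)
        have := mul_le_mul_of_nonneg_left this hC.le
        linarith
    _ = _ := by ring

end Pool.Agent.H82.RO
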