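import Pool.Agent.H82.RO.Main
import Pool.Agent.W307.RT.Main4
import Pool.Agent.W307.RT.Main6

set_option autoImplicit false

/-!
# The two families
-/

namespace Pool.Agent.H82.RO

open Finset Pool.Agent.W262.RK Pool.Agent.W307.RT
open Pool.Agent.TH867.QF (Fm va ev rs Rs Rs_pos Pt U U_pos ht ht_pos va_le va_pos dvd_rs)

/-- the forms `a, b, a - b, a + b` -/
def L4 : Fm (1 + 3) where
  u := ![1, 0, 1, 1]
  w := ![0, 1, -1, 1]
  res := by decide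

/-- the forms `u, v, u + 2 v, 2 u + v, u - v, u + v` -/
def L6 : Fm (3 + 3) where
  u := ![1, 0, 1, 2, 1, 1]
  w := ![0, 1, 2, 1, -1, 1]
  res := by decide

/-- the multiplicities -/
def μ4 : Fin (1 + 3) → ℕ := ![2, 2, 1, 1]

/-- the multiplicities -/
def μ6 : Fin (3 + 3) → ℕ := ![3, 3, 1, 1, 1, 3]

lemma small_res {z : ℤ} (h : z.natAbs ∣ 6) {p : ℕ} (hp : p.Prime) (hp5 : 5 ≤ p) :
    ¬ (p : ℤ) ∣ z := by
  intro hd
  have h1 : p ∣ z.natAbs := Int.natCast_dvd.1 hd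
  have h2 : p ∣ 6 := h1.trans h
  have h3 : p ≤ 6 := Nat.le_of_dvd (by norm_num) h2
  interval_cases p
  · omega
  · exact absurd hp (by decide)

lemma bez4 {a b : ℤ} (h : IsCoprime a b) : ∃ x y : ℤ, x * a ^ 2 + y * b ^ 2 = 3 := by
  obtain ⟨x, y, hxy⟩ := (h.pow : IsCoprime (a ^ 2) (b ^ 2))
  exact ⟨3 * x, 3 * y, by linear_combination 3 * hxy⟩

theorem data4 : Data 4 1 L4 μ4 M4 N4 where
  mu1 := by decide
  mu3 := by decide
  prod := by
    rintro ⟨a, b⟩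
    rw [Fin.prod_univ_four]
    change a ^ 2 * b ^ 2 * (a ^ 2 - b ^ 2) =
      (1 * a + 0 * b) ^ 2 * (0 * a + 1 * b) ^ 2 * (1 * a + -1 * b) ^ 1 * (1 * a + 1 * b) ^ 1
    ring
  res := by
    intro i j hij p hp hp5
    refine small_res ?_ hp hp5
    revert i j
    decide
  box := box4
  low := Pool.Agent.W29.RT.low4
  par := by
    refine ⟨54, Pool.Agent.W605.RT.FF, fun c hc => ?_⟩
    obtain ⟨hD, hmin, hT⟩ := hc
    have r := Pool.Agent.W605.RT.FF_rel (Pool.Agent.W605.RT.core hD hT)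
    change Pool.Agent.W605.RT.Rel c (Pool.Agent.W605.RT.FF c) at r
    refine ⟨?_, ?_, fun H hH => Pool.Agent.W605.RT.rel_bound (A := c.1) (B := c.2) r hH⟩
    · obtain ⟨g, e, hg, hco, -⟩ := r
      exact hco
    · generalize Pool.Agent.W605.RT.FF c = ab at r ⊢
      obtain ⟨a, b⟩ := ab
      obtain ⟨g, e, hg, hco, ha0, hb0, hne, he, hA, hB⟩ := r
      refine ⟨(g : ℚ), ?_⟩
      change a ≠ 0 at ha0
      change b ≠ 0 at hb0
      change a ^ 2 ≠ b ^ 2 at hne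
      change 3 * c.1 = -(g ^ 4 * (a ^ 4 - a ^ 2 * b ^ 2 + b ^ 4)) at hA
      change 27 * c.2 = g ^ 6 * ((a ^ 2 + b ^ 2) * (2 * a ^ 2 - b ^ 2) * (a ^ 2 - 2 * b ^ 2)) at hB
      have hAq : (3 : ℚ) * c.1 = -((g : ℚ) ^ 4 * ((a : ℚ) ^ 4 - a ^ 2 * b ^ 2 + b ^ 4)) := by
        exact_mod_cast hA
      have hBq : (27 : ℚ) * c.2 = (g : ℚ) ^ 6 * (((a : ℚ) ^ 2 + b ^ 2) * (2 * a ^ 2 - b ^ 2) *
          (a ^ 2 - 2 * b ^ 2)) := by exact_mod_cast hB
      refine ⟨by exact_mod_cast hg.ne', pow_ne_zero 2 ha0, pow_ne_zero 2 hb0, hne, bez4 hco, ?_, ?_,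
        ⟨g ^ 2 * a ^ 2, ?_⟩, ⟨g ^ 2 * b ^ 2, ?_⟩⟩
      · unfold M4 N4
        rw [hAq]
        push_cast
        ring
      · unfold M4 N4
        rw [hBq]
        push_cast
        ring
      · unfold M4
        push_cast
        ring
      · unfold N4
        push_cast
        ring

theorem data6 : Data 6 3 L6 μ6 M6 N6 where
  mu1 := by decide
  mu3 := by decide
  prod := by
    rintro ⟨u, v⟩
    rw [Fin.prod_univ_six]
    change u ^ 3 * (u + 2 * v) * (v ^ 3 * (v + 2 * u)) *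
      (u ^ 3 * (u + 2 * v) - v ^ 3 * (v + 2 * u)) =
      (1 * u + 0 * v) ^ 3 * (0 * u + 1 * v) ^ 3 * (1 * u + 2 * v) ^ 1 * (2 * u + 1 * v) ^ 1 *
        (1 * u + -1 * v) ^ 1 * (1 * u + 1 * v) ^ 3
    ring
  res := by
    intro i j hij p hp hp5
    refine small_res ?_ hp hp5
    revert i j
    decide
  box := box6
  low := Pool.Agent.W376.RTL.low6
  par := by
    refine ⟨147456 ^ 3, Pool.Agent.W135.RT.FF, fun c hc => ?_⟩
    obtain ⟨hD, hmin, hT⟩ := hc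
    have hs : ∃ s : ℚ, Pool.Agent.W135.RT.R6 c.1 c.2 (Pool.Agent.W135.RT.FF c).1
        (Pool.Agent.W135.RT.FF c).2 s := by
      have h : ∃ (w : ℤ × ℤ) (s : ℚ), Pool.Agent.W135.RT.R6 c.1 c.2 w.1 w.2 s := by
        obtain ⟨u, v, s, hR⟩ := Pool.Agent.W135.RT.exR hD hT
        exact ⟨(u, v), s, hR⟩
      unfold Pool.Agent.W135.RT.FF
      rw [dif_pos h]
      exact h.choose_spec
    obtain ⟨s, hR⟩ := hs
    refine ⟨hR.cop, ⟨s, hR.s0, hR.m0, hR.n0, hR.mn, Pool.Agent.W135.RT.bez hR.cop, hR.ea, hR.eb,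
      hR.im, hR.jn⟩, fun H hH => ⟨?_, ?_⟩⟩
    · exact Pool.Agent.W135.RT.bound2 hR H hH _ (Or.inl rfl)
    · exact Pool.Agent.W135.RT.bound2 hR H hH _ (Or.inr rfl)

end Pool.Agent.H82.RO
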