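import Pool.Agent.H82.RO.Core

set_option autoImplicit false

/-!
# The three orderings
-/

namespace Pool.Agent.H82.RO

open Finset Pool.Agent.W262.RK Pool.Agent.W307.RT Filter
open Pool.Agent.TH867.SQ (lr log_nn)
open Pool.Agent.TH867.QF (Fm va ev rs Rs Rs_pos Pt U U_pos ht ht_pos va_le va_pos dvd_rs)

variable {m d : ℕ} {L : Fm (d + 3)} {μ : Fin (d + 3) → ℕ} {M N : ℤ → ℤ → ℤ}

theorem pt_of (h : Data m d L μ M N) {P c : ℤ × ℤ} (hc : IsCoprime P.1 P.2) {s : ℚ}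
    (hR : RM (M P.1 P.2) (N P.1 P.2) c.1 c.2 s) : Pt L P := by
  refine ⟨hc, fun i hi => ?_⟩
  have h1 := h.prod P
  have h2 : ∏ i, ev L P i ^ μ i = 0 := by
    refine prod_eq_zero (mem_univ i) ?_
    rw [hi]
    exact zero_pow (by have := h.mu1 i; omega)
  rw [h2] at h1
  rcases mul_eq_zero.1 h1 with h3 | h3
  · rcases mul_eq_zero.1 h3 with h4 | h4
    · exact hR.m0 h4
    · exact hR.n0 h4
  · exact hR.mn (sub_eq_zero.1 h3)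

/-- the sums over the curves are sums over the points -/
theorem sum_transfer (h : Data m d L μ M N) : ∃ (C0 : ℕ) (F0 : ℤ × ℤ → ℤ × ℤ),
    (∀ c ∈ Fam m, Pt L (F0 c) ∧
      (∃ s : ℚ, RM (M (F0 c).1 (F0 c).2) (N (F0 c).1 (F0 c).2) c.1 c.2 s) ∧
      ∀ H : ℕ, 4 * |c.1| ^ 3 ≤ (H : ℤ) → ht (F0 c) ^ (2 * ∑ j, μ j) ≤ C0 * H) ∧
    ∀ S : Finset (ℤ × ℤ), (∀ c ∈ S, c ∈ Fam m) →
      ∑ c ∈ S, W c = ∑ P ∈ S.image F0, fw M N P := by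
  classical
  obtain ⟨C0, F0, hF0⟩ := h.par
  refine ⟨C0, F0, fun c hc => ?_, fun S hS => ?_⟩
  · obtain ⟨h1, ⟨s, hR⟩, h3⟩ := hF0 c hc
    refine ⟨pt_of h h1 hR, ⟨s, hR⟩, fun H hH => ?_⟩
    obtain ⟨a1, a2⟩ := h3 H hH
    unfold ht
    rcases max_choice (F0 c).1.natAbs (F0 c).2.natAbs with e | e
    · rw [e]; exact a1
    · rw [e]; exact a2
  · rw [sum_image]
    · refine sum_congr rfl fun c hc => ?_
      obtain ⟨-, ⟨s, hR⟩, -⟩ := hF0 c (hS c hc)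
      unfold W fw
      rw [fin_eq hR]
    · intro c hc c' hc' hcc
      obtain ⟨-, ⟨s, hR⟩, -⟩ := hF0 c (hS c hc)
      obtain ⟨-, ⟨s', hR'⟩, -⟩ := hF0 c' (hS c' hc')
      rw [← hcc] at hR'
      obtain ⟨e1, e2⟩ := rm_inj hR hR' (hS c hc).2.1 (hS c' hc').2.1
      exact Prod.ext e1 e2

/-- **By conductor.** -/
theorem upper_cond (h : Data m d L μ M N) : ∃ C : ℝ, ∀ X : ℝ, 1 ≤ X → ∀ S : Finset (ℤ × ℤ),
    (∀ c ∈ S, c ∈ Fam m ∧ (Cond6 c : ℝ) ≤ X) →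
    ∑ c ∈ S, W c ≤ C * X ^ (2 / ((d + 3 : ℕ) : ℝ)) := by
  classical
  obtain ⟨C0, F0, hF0, htr⟩ := sum_transfer h
  obtain ⟨G, hG⟩ := fw_mom h
  obtain ⟨C, hC, hw⟩ := weighted_rad L (31 / 10) (by norm_num) (fw M N)
    (fun P => by unfold fw; positivity) G hG (fw_pt h)
  refine ⟨C * (6 ^ (d + 3)) ^ (2 / ((d + 3 : ℕ) : ℝ)), fun X hX S hS => ?_⟩
  have hX0 : 0 < X := by linarith
  rw [htr S fun c hc => (hS c hc).1]
  have h6 : (1 : ℝ) ≤ 6 ^ (d + 3) := one_le_pow₀ (by norm_num)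
  have h1 := hw (6 ^ (d + 3) * X) (one_le_mul_of_one_le_of_one_le h6 hX) (S.image F0)
    (fun P hP => by
      obtain ⟨c, hc, rfl⟩ := mem_image.1 hP
      obtain ⟨hcF, hcX⟩ := hS c hc
      obtain ⟨hpt, ⟨s, hR⟩, -⟩ := hF0 c hcF
      refine ⟨hpt, (lr_cond h hpt hR hcF.2.1 hcF.1).trans ?_⟩
      rw [Real.log_mul (by positivity) hX0.ne', Real.log_pow]
      push_cast
      refine add_le_add le_rfl ?_
      refine Real.log_le_log ?_ hcX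
      have : 0 < Cond6 c := by
        unfold Cond6
        refine prod_pos fun p hp => ?_
        have := (Nat.prime_of_mem_primeFactors (mem_filter.1 hp).1).pos
        split_ifs
        · positivity
        · exact this
      exact_mod_cast this)
  rw [Real.mul_rpow (by positivity) hX0.le] at h1
  refine h1.trans (le_of_eq ?_)
  push_cast
  ring

/-- **By discriminant.** -/
theorem upper_disc (h : Data m d L μ M N) : ∃ C : ℝ, ∀ X : ℝ, 1 ≤ X → ∀ S : Finset (ℤ × ℤ),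
    (∀ c ∈ S, c ∈ Fam m ∧ (Dsc c : ℝ) ≤ X) →
    ∑ c ∈ S, W c ≤ C * X ^ (2 / ((2 * ∑ j, μ j : ℕ) : ℝ)) := by
  classical
  obtain ⟨C0, F0, hF0, htr⟩ := sum_transfer h
  obtain ⟨G, hG⟩ := fw_mom h
  obtain ⟨C, hC, hw⟩ := weighted_prod L μ h.mu1 h.mu3 (31 / 10) (by norm_num) (fw M N)
    (fun P => by unfold fw; positivity) G hG
  obtain ⟨D, hD⟩ : ∃ D : ℕ, D = ∑ j, μ j := ⟨_, rfl⟩
  have hD1 : 1 ≤ D := by
    have := h.mu3 0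
    have := h.mu1 0
    omega
  rw [← hD] at hw ⊢
  have hD0 : (0 : ℝ) < D := by exact_mod_cast hD1
  refine ⟨C * (3 ^ 6) ^ (2 / ((2 * D : ℕ) : ℝ)), fun X hX S hS => ?_⟩
  have hX0 : 0 < X := by linarith
  obtain ⟨y, hy⟩ : ∃ y : ℝ, y = (3 ^ 6 * X) ^ (1 / ((2 * D : ℕ) : ℝ)) := ⟨_, rfl⟩
  have h3X : (1 : ℝ) ≤ 3 ^ 6 * X := by linarith
  have h3X0 : (0 : ℝ) ≤ 3 ^ 6 * X := by linarith
  have hy1 : 1 ≤ y := by rw [hy]; exact Real.one_le_rpow h3X (by positivity)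
  have hy2D : (y ^ D) ^ 2 = 3 ^ 6 * X := by
    rw [← pow_mul, hy, ← Real.rpow_natCast, ← Real.rpow_mul h3X0]
    have : 1 / ((2 * D : ℕ) : ℝ) * ((D * 2 : ℕ) : ℝ) = 1 := by
      push_cast
      field_simp
    rw [this, Real.rpow_one]
  rw [htr S fun c hc => (hS c hc).1]
  have h1 := hw y hy1 (S.image F0) (fun P hP => by
    obtain ⟨c, hc, rfl⟩ := mem_image.1 hP
    obtain ⟨hcF, hcX⟩ := hS c hc
    obtain ⟨hpt, ⟨s, hR⟩, -⟩ := hF0 c hcF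
    refine ⟨hpt, ?_⟩
    have h2 := prod_disc h hR
    have h3 : (∏ i, (va L (F0 c) i : ℝ) ^ μ i) ^ 2 ≤ (y ^ D) ^ 2 := by
      rw [hy2D]
      linarith
    exact le_of_pow_le_pow_left₀ (by norm_num) (by positivity) h3)
  refine h1.trans (le_of_eq ?_)
  have e : y ^ 2 = (3 ^ 6) ^ (2 / ((2 * D : ℕ) : ℝ)) * X ^ (2 / ((2 * D : ℕ) : ℝ)) := by
    rw [← Real.mul_rpow (by positivity) hX0.le, hy, ← Real.rpow_natCast, ← Real.rpow_mul h3X0]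
    congr 1
    push_cast
    ring
  rw [e]
  ring

theorem dsc_le_hgt (c : ℤ × ℤ) : Dsc c ≤ 2 * Hgt c := by
  unfold Dsc Hgt
  have h1 : (4 * c.1 ^ 3 + 27 * c.2 ^ 2).natAbs ≤ 4 * c.1.natAbs ^ 3 + 27 * c.2.natAbs ^ 2 := by
    refine (Int.natAbs_add_le _ _).trans ?_
    rw [Int.natAbs_mul, Int.natAbs_mul, Int.natAbs_pow, Int.natAbs_pow]
    exact le_rfl
  have h2 := le_max_left (4 * c.1.natAbs ^ 3) (27 * c.2.natAbs ^ 2)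
  have h3 := le_max_right (4 * c.1.natAbs ^ 3) (27 * c.2.natAbs ^ 2)
  omega

/-- **By height.** -/
theorem upper_hgt (h : Data m d L μ M N) : ∃ C : ℝ, ∀ X : ℝ, 1 ≤ X → ∀ S : Finset (ℤ × ℤ),
    (∀ c ∈ S, c ∈ Fam m ∧ (Hgt c : ℝ) ≤ X) →
    ∑ c ∈ S, W c ≤ C * X ^ (2 / ((2 * ∑ j, μ j : ℕ) : ℝ)) := by
  obtain ⟨C, hC⟩ := upper_disc h
  refine ⟨C * 2 ^ (2 / ((2 * ∑ j, μ j : ℕ) : ℝ)), fun X hX S hS => ?_⟩
  have h1 := hC (2 * X) (by linarith) S (fun c hc => by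
    refine ⟨(hS c hc).1, ?_⟩
    have h2 : (Dsc c : ℝ) ≤ 2 * Hgt c := by exact_mod_cast dsc_le_hgt c
    linarith [(hS c hc).2])
  rw [Real.mul_rpow (by norm_num) (by linarith)] at h1
  linarith

/-- **Many curves.** -/
theorem lower (h : Data m d L μ M N) : ∃ (c : ℝ) (K T0 : ℕ), 0 < c ∧ ∀ T : ℕ, T0 ≤ T →
    ∃ F : Finset (ℤ × ℤ), (∀ x ∈ F, x ∈ Fam m ∧ Hgt x ≤ K * T ^ (2 * ∑ j, μ j) ∧
      Dsc x ≤ K * T ^ (2 * ∑ j, μ j) ∧ Cond6 x ≤ K * T ^ (d + 3)) ∧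
      c * (T : ℝ) ^ 2 ≤ F.card := by
  classical
  obtain ⟨C0, F0, hF0, -⟩ := sum_transfer h
  obtain ⟨c, C, T0, hc, hlow⟩ := h.low
  obtain ⟨k, hk⟩ : ∃ k : ℕ, k = 2 * ∑ j, μ j := ⟨_, rfl⟩
  have hk1 : 1 ≤ k := by
    have := h.mu3 0
    have := h.mu1 0
    omega
  rw [← hk] at hlow hF0 ⊢
  refine ⟨c, 2 * C + (U L * (C0 * C + 1)) ^ (d + 3), T0, hc, fun T hT => ?_⟩
  refine ⟨Cv m (C * T ^ k), fun x hx => ?_, hlow T (C * T ^ k) hT le_rfl⟩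
  have hx' : 4 * x.1 ^ 3 + 27 * x.2 ^ 2 ≠ 0 ∧ 4 * |x.1| ^ 3 ≤ ((C * T ^ k : ℕ) : ℤ) ∧
      27 * x.2 ^ 2 ≤ ((C * T ^ k : ℕ) : ℤ) ∧ Mn x.1 x.2 ∧ HasT m (Sh x.1 x.2) :=
    (mem_filter.1 hx).2
  obtain ⟨h1, h2, h3, h4, h5⟩ := hx'
  have hxF : x ∈ Fam m := ⟨h1, h4, h5⟩
  have hH : Hgt x ≤ C * T ^ k := by
    unfold Hgt
    refine max_le ?_ ?_
    · zify
      zify at h2
      exact h2
    · zify
      rw [sq_abs]
      zify at h3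
      exact h3
  have hKC : C * T ^ k ≤ (2 * C + (U L * (C0 * C + 1)) ^ (d + 3)) * T ^ k := by
    refine Nat.mul_le_mul_right _ ?_
    omega
  refine ⟨hxF, hH.trans hKC, ?_, ?_⟩
  · refine (dsc_le_hgt x).trans ?_
    calc 2 * Hgt x ≤ 2 * (C * T ^ k) := Nat.mul_le_mul_left _ hH
      _ = (2 * C) * T ^ k := by ring
      _ ≤ _ := Nat.mul_le_mul_right _ (by omega)
  · obtain ⟨hpt, ⟨s, hR⟩, hb⟩ := hF0 x hxF
    have h6 := hb (C * T ^ k) h2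
    have h7 : ht (F0 x) ≤ (C0 * C + 1) * T := by
      by_contra hcon
      have h8 := Nat.pow_lt_pow_left (not_le.1 hcon) (by omega : k ≠ 0)
      have h9 : C0 * (C * T ^ k) ≤ ((C0 * C + 1) * T) ^ k := by
        rw [mul_pow, ← mul_assoc]
        refine Nat.mul_le_mul_right _ ?_
        exact (Nat.le_succ _).trans (Nat.le_self_pow (by omega) _)
      omega
    refine (cond_le h hpt hR h4 h1).trans ?_
    calc (U L * ht (F0 x)) ^ (d + 3) ≤ (U L * ((C0 * C + 1) * T)) ^ (d + 3) :=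
          Nat.pow_le_pow_left (Nat.mul_le_mul_left _ h7) _
      _ = (U L * (C0 * C + 1)) ^ (d + 3) * T ^ (d + 3) := by rw [← mul_pow]; ring
      _ ≤ _ := Nat.mul_le_mul_right _ (by omega)

/-- `I` is comparable to `J` on the family -/
def Comparable (m : ℕ) (J I : ℤ × ℤ → ℝ) : Prop :=
  ∃ k K : ℝ, 0 < k ∧ ∀ c ∈ Fam m, k * J c ≤ I c ∧ I c ≤ K * J c

/-- the conclusion; the exponent of the number of the curves is `e` -/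
def Concl (m : ℕ) (I : ℤ × ℤ → ℝ) (e : ℝ) : Prop :=
  (∃ c C X₀ : ℝ, 0 < c ∧ 1 ≤ X₀ ∧ ∀ X : ℝ, X₀ ≤ X →
    c * X ^ e ≤ ({c | c ∈ Fam m ∧ I c ≤ X}.ncard : ℝ) ∧
    ({c | c ∈ Fam m ∧ I c ≤ X}.ncard : ℝ) ≤ C * X ^ e) ∧
    ∃ C : ℝ, 0 ≤ C ∧ ∀ X : ℝ, ∃ F : Finset (ℤ × ℤ), (F : Set (ℤ × ℤ)) = {c | c ∈ Fam m ∧ I c ≤ X} ∧
      ∑ c ∈ F, W c ≤ C * F.card

/-- **By conductor.** -/
theorem main_cond (h : Data m d L μ M N) (I : ℤ × ℤ → ℝ)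
    (hI : Comparable m (fun c => (Cond6 c : ℝ)) I) : Concl m I (2 / ((d + 3 : ℕ) : ℝ)) := by
  classical
  obtain ⟨c, K, T0, hc, hl⟩ := lower h
  refine finish (Fam m) W one_le_W (fun c => (Cond6 c : ℝ)) I (fun _ => Nat.cast_nonneg _)
    (d + 3) (by omega) (upper_cond h) ⟨c, K, T0, hc, fun T hT => ?_⟩ hI
  obtain ⟨F, hF, hF2⟩ := hl T hT
  exact ⟨F, fun x hx => ⟨(hF x hx).1, by exact_mod_cast (hF x hx).2.2.2⟩, hF2⟩

/-- **By discriminant and by height.** -/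
theorem main_disc (h : Data m d L μ M N) (I : ℤ × ℤ → ℝ)
    (hI : Comparable m (fun c => (Dsc c : ℝ)) I ∨ Comparable m (fun c => (Hgt c : ℝ)) I) :
    Concl m I (2 / ((2 * ∑ j, μ j : ℕ) : ℝ)) := by
  classical
  obtain ⟨c, K, T0, hc, hl⟩ := lower h
  have hk1 : 1 ≤ 2 * ∑ j, μ j := by
    have := h.mu3 0
    have := h.mu1 0
    omega
  rcases hI with hI | hI
  · refine finish (Fam m) W one_le_W (fun c => (Dsc c : ℝ)) I (fun _ => Nat.cast_nonneg _)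
      (2 * ∑ j, μ j) hk1 (upper_disc h) ⟨c, K, T0, hc, fun T hT => ?_⟩ hI
    obtain ⟨F, hF, hF2⟩ := hl T hT
    exact ⟨F, fun x hx => ⟨(hF x hx).1, by exact_mod_cast (hF x hx).2.2.1⟩, hF2⟩
  · refine finish (Fam m) W one_le_W (fun c => (Hgt c : ℝ)) I (fun _ => Nat.cast_nonneg _)
      (2 * ∑ j, μ j) hk1 (upper_hgt h) ⟨c, K, T0, hc, fun T hT => ?_⟩ hI
    obtain ⟨F, hF, hF2⟩ := hl T hT
    exact ⟨F, fun x hx => ⟨(hF x hx).1, by exact_mod_cast (hF x hx).2.1⟩, hF2⟩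

end Pool.Agent.H82.RO
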