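import Mathlib

set_option autoImplicit false

/-!
# From upper and lower bounds to averages, for every comparable invariant
-/

namespace Pool.Agent.H82.RO

open Finset

/-- the averages of `w` over the members of `S` with `I ≤ X` -/
theorem finish {α : Type*} [DecidableEq α] (S : Set α) (w : α → ℝ) (hw : ∀ c, 1 ≤ w c)
    (J I : α → ℝ) (hJ : ∀ c, 0 ≤ J c) (a : ℕ) (ha : 1 ≤ a)
    (h1 : ∃ C : ℝ, ∀ X : ℝ, 1 ≤ X → ∀ F : Finset α, (∀ c ∈ F, c ∈ S ∧ J c ≤ X) →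
      ∑ c ∈ F, w c ≤ C * X ^ (2 / (a : ℝ)))
    (h2 : ∃ (c : ℝ) (K T0 : ℕ), 0 < c ∧ ∀ T : ℕ, T0 ≤ T → ∃ F : Finset α,
      (∀ x ∈ F, x ∈ S ∧ J x ≤ K * (T : ℝ) ^ a) ∧ c * (T : ℝ) ^ 2 ≤ F.card)
    (hI : ∃ k K : ℝ, 0 < k ∧ ∀ c ∈ S, k * J c ≤ I c ∧ I c ≤ K * J c) :
    (∃ c C X₀ : ℝ, 0 < c ∧ 1 ≤ X₀ ∧ ∀ X : ℝ, X₀ ≤ X → c * X ^ (2 / (a : ℝ)) ≤
      ({c | c ∈ S ∧ I c ≤ X}.ncard : ℝ) ∧
      ({c | c ∈ S ∧ I c ≤ X}.ncard : ℝ) ≤ C * X ^ (2 / (a : ℝ))) ∧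
    ∃ C : ℝ, 0 ≤ C ∧ ∀ X : ℝ, ∃ F : Finset α, (F : Set α) = {c | c ∈ S ∧ I c ≤ X} ∧
      ∑ c ∈ F, w c ≤ C * F.card := by
  classical
  obtain ⟨C, hC⟩ := h1
  obtain ⟨c0, K0, T0, hc0, hlow⟩ := h2
  obtain ⟨k, K, hk, hkK⟩ := hI
  have ha0 : (0 : ℝ) < a := by exact_mod_cast ha
  have he0 : 0 < 2 / (a : ℝ) := by positivity
  have hsub : ∀ X : ℝ, ∀ x, x ∈ S ∧ I x ≤ X → x ∈ S ∧ J x ≤ max (X / k) 1 := by
    rintro X x ⟨hx, hxI⟩
    refine ⟨hx, le_trans ?_ (le_max_left _ _)⟩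
    rw [le_div_iff₀ hk]
    have := (hkK x hx).1
    linarith
  have hsum : ∀ X : ℝ, ∀ F : Finset α, (∀ x ∈ F, x ∈ S ∧ I x ≤ X) →
      ∑ x ∈ F, w x ≤ |C| * max (X / k) 1 ^ (2 / (a : ℝ)) := by
    intro X F hF
    refine (hC _ (le_max_right _ _) F fun x hx => hsub X x (hF x hx)).trans ?_
    exact mul_le_mul_of_nonneg_right (le_abs_self _)
      (Real.rpow_nonneg (le_trans zero_le_one (le_max_right _ _)) _)
  have hcw : ∀ F : Finset α, (F.card : ℝ) ≤ ∑ x ∈ F, w x := by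
    intro F
    calc (F.card : ℝ) = ∑ _x ∈ F, (1 : ℝ) := by simp
      _ ≤ _ := sum_le_sum fun x _ => hw x
  have hfin : ∀ X : ℝ, {x | x ∈ S ∧ I x ≤ X}.Finite := by
    intro X
    by_contra hinf
    have hinf' : {x | x ∈ S ∧ I x ≤ X}.Infinite := hinf
    obtain ⟨n, hn⟩ := exists_nat_gt (|C| * max (X / k) 1 ^ (2 / (a : ℝ)))
    obtain ⟨F, hF, hFc⟩ := hinf'.exists_subset_card_eq n
    have h3 := hsum X F fun x hx => hF hx
    have h4 := hcw F
    rw [hFc] at h4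
    linarith
  -- the lower bound
  obtain ⟨K', hK'⟩ : ∃ K' : ℝ, K' = |K| * K0 + 1 := ⟨_, rfl⟩
  have hK'1 : 1 ≤ K' := by
    rw [hK']
    have : 0 ≤ |K| * (K0 : ℝ) := by positivity
    linarith
  have hK'0 : 0 < K' := by linarith
  obtain ⟨T1, hT1⟩ : ∃ T1 : ℕ, T1 = max T0 1 := ⟨_, rfl⟩
  have hT11 : 1 ≤ T1 := by rw [hT1]; exact le_max_right _ _
  have hT10 : T0 ≤ T1 := by rw [hT1]; exact le_max_left _ _
  obtain ⟨X1, hX1⟩ : ∃ X1 : ℝ, X1 = K' * (T1 : ℝ) ^ a := ⟨_, rfl⟩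
  have hT1a : (1 : ℝ) ≤ (T1 : ℝ) ^ a := one_le_pow₀ (by exact_mod_cast hT11)
  have hX11 : K' ≤ X1 := by
    rw [hX1]
    exact le_mul_of_one_le_right hK'0.le hT1a
  have hlb : ∀ X : ℝ, X1 ≤ X → c0 / 4 * (X / K') ^ (2 / (a : ℝ)) ≤
      ({x | x ∈ S ∧ I x ≤ X}.ncard : ℝ) := by
    intro X hX
    obtain ⟨z, hz⟩ : ∃ z : ℝ, z = (X / K') ^ (1 / (a : ℝ)) := ⟨_, rfl⟩
    have hXK : (T1 : ℝ) ^ a ≤ X / K' := by
      rw [le_div_iff₀ hK'0, mul_comm, ← hX1]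
      exact hX
    have hXK0 : 0 ≤ X / K' := by linarith
    have hza : z ^ a = X / K' := by
      rw [hz, ← Real.rpow_natCast, ← Real.rpow_mul hXK0, one_div_mul_cancel ha0.ne', Real.rpow_one]
    have hz0 : 0 ≤ z := by rw [hz]; exact Real.rpow_nonneg hXK0 _
    have hzT : (T1 : ℝ) ≤ z := by
      rw [← hza] at hXK
      exact le_of_pow_le_pow_left₀ (by omega) hz0 hXK
    obtain ⟨T, hT⟩ : ∃ T : ℕ, T = ⌊z⌋₊ := ⟨_, rfl⟩
    have hTz : (T : ℝ) ≤ z := by rw [hT]; exact Nat.floor_le hz0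
    have hzT' : z < T + 1 := by rw [hT]; exact Nat.lt_floor_add_one z
    have hT1T : T1 ≤ T := by rw [hT]; exact Nat.le_floor hzT
    obtain ⟨F, hF, hFc⟩ := hlow T (hT10.trans hT1T)
    have hFs : (F : Set α) ⊆ {x | x ∈ S ∧ I x ≤ X} := by
      intro x hx
      obtain ⟨a1, a2⟩ := hF x hx
      refine ⟨a1, ?_⟩
      have a3 := (hkK x a1).2
      have a4 : K * J x ≤ |K| * J x := mul_le_mul_of_nonneg_right (le_abs_self K) (hJ x)
      have a5 : |K| * J x ≤ |K| * (K0 * (T : ℝ) ^ a) := mul_le_mul_of_nonneg_left a2 (abs_nonneg K)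
      have a6 : (T : ℝ) ^ a ≤ z ^ a := pow_le_pow_left₀ (Nat.cast_nonneg _) hTz a
      rw [hza] at a6
      have a7 : |K| * (K0 * (T : ℝ) ^ a) ≤ K' * (T : ℝ) ^ a := by
        rw [hK', ← mul_assoc]
        exact mul_le_mul_of_nonneg_right (by linarith) (by positivity)
      have a8 : K' * (T : ℝ) ^ a ≤ X := by
        calc K' * (T : ℝ) ^ a ≤ K' * (X / K') := mul_le_mul_of_nonneg_left a6 hK'0.le
          _ = X := by field_simp
      linarith
    have h5 := Set.ncard_le_ncard hFs (hfin X)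
    rw [Set.ncard_coe_finset] at h5
    have h6 : (F.card : ℝ) ≤ ({x | x ∈ S ∧ I x ≤ X}.ncard : ℝ) := by exact_mod_cast h5
    have h7 : (X / K') ^ (2 / (a : ℝ)) = z ^ 2 := by
      rw [hz, ← Real.rpow_natCast, ← Real.rpow_mul hXK0]
      congr 1
      push_cast
      ring
    have h8 : z ≤ 2 * T := by
      have : (1 : ℝ) ≤ T := by exact_mod_cast hT11.trans hT1T
      linarith
    rw [h7]
    calc c0 / 4 * z ^ 2 ≤ c0 / 4 * (2 * (T : ℝ)) ^ 2 := by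
          refine mul_le_mul_of_nonneg_left (pow_le_pow_left₀ hz0 h8 2) (by positivity)
      _ = c0 * (T : ℝ) ^ 2 := by ring
      _ ≤ _ := hFc.trans h6
  have hKp : 0 < K' ^ (2 / (a : ℝ)) := by positivity
  have hXK : ∀ X : ℝ, X1 ≤ X → max (X / k) 1 ≤ (1 + K' / k) * (X / K') := by
    intro X hX
    have hXK1 : 1 ≤ X / K' := by
      rw [le_div_iff₀ hK'0]
      linarith
    have hKk : 0 < K' / k := by positivity
    refine max_le ?_ ?_
    · have e : X / k = K' / k * (X / K') := by field_simp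
      rw [e]
      exact mul_le_mul_of_nonneg_right (by linarith) (by linarith)
    · nlinarith
  refine ⟨⟨c0 / 4 / K' ^ (2 / (a : ℝ)), |C| * (1 + K' / k) ^ (2 / (a : ℝ)) / K' ^ (2 / (a : ℝ)),
    X1, by positivity, hK'1.trans hX11, fun X hX => ⟨?_, ?_⟩⟩, ?_⟩
  · refine le_trans (le_of_eq ?_) (hlb X hX)
    rw [Real.div_rpow (by linarith) hK'0.le]
    ring
  · have hX0 : 0 ≤ X := by linarith
    have h5 := hcw (hfin X).toFinset
    have h6 := hsum X (hfin X).toFinset fun x hx => by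
      rw [Set.Finite.mem_toFinset] at hx
      exact hx
    have h7 : ({x | x ∈ S ∧ I x ≤ X}.ncard : ℝ) = (hfin X).toFinset.card := by
      rw [Set.ncard_eq_toFinset_card _ (hfin X)]
    rw [h7]
    have h8 : max (X / k) 1 ^ (2 / (a : ℝ)) ≤
        (1 + K' / k) ^ (2 / (a : ℝ)) * (X / K') ^ (2 / (a : ℝ)) := by
      rw [← Real.mul_rpow (by positivity) (by positivity)]
      exact Real.rpow_le_rpow (le_trans zero_le_one (le_max_right _ _)) (hXK X hX) he0.le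
    refine (h5.trans h6).trans ((mul_le_mul_of_nonneg_left h8 (abs_nonneg C)).trans
      (le_of_eq ?_))
    rw [Real.div_rpow hX0 hK'0.le]
    ring
  · obtain ⟨B, hB⟩ : ∃ B : ℝ, B = (1 + K' / k) ^ (2 / (a : ℝ)) := ⟨_, rfl⟩
    have hB0 : 0 < B := by
      rw [hB]
      positivity
    obtain ⟨B2, hB2⟩ : ∃ B2 : ℝ, B2 = max (X1 / k) 1 ^ (2 / (a : ℝ)) := ⟨_, rfl⟩
    have hB20 : 0 ≤ B2 := by
      rw [hB2]
      exact Real.rpow_nonneg (le_trans zero_le_one (le_max_right _ _)) _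
    refine ⟨|C| * B * (4 / c0) + |C| * B2, by positivity, fun X => ?_⟩
    refine ⟨(hfin X).toFinset, Set.Finite.coe_toFinset _, ?_⟩
    obtain ⟨F, hF⟩ : ∃ F, F = (hfin X).toFinset := ⟨_, rfl⟩
    rw [← hF]
    have hFm : ∀ x ∈ F, x ∈ S ∧ I x ≤ X := by
      intro x hx
      rw [hF, Set.Finite.mem_toFinset] at hx
      exact hx
    have hFc : ({x | x ∈ S ∧ I x ≤ X}.ncard : ℝ) = F.card := by
      rw [hF, Set.ncard_eq_toFinset_card _ (hfin X)]
    have hs := hsum X F hFm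
    have hp1 : 0 ≤ |C| * B * (4 / c0) := by positivity
    have hp2 : 0 ≤ |C| * B2 := by positivity
    rcases F.eq_empty_or_nonempty with he | hne
    · rw [he, sum_empty, card_empty]
      simp
    have hF1 : (1 : ℝ) ≤ F.card := by exact_mod_cast hne.card_pos
    rcases le_or_gt X1 X with hX | hX
    · have h3 := hlb X hX
      rw [hFc] at h3
      have hXK1 : 1 ≤ X / K' := by
        rw [le_div_iff₀ hK'0]
        linarith
      have h4 := hXK X hX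
      have h5 : max (X / k) 1 ^ (2 / (a : ℝ)) ≤ B * (X / K') ^ (2 / (a : ℝ)) := by
        rw [hB, ← Real.mul_rpow (by positivity) (by linarith)]
        exact Real.rpow_le_rpow (le_trans zero_le_one (le_max_right _ _)) h4 he0.le
      have h6 : (X / K') ^ (2 / (a : ℝ)) ≤ 4 / c0 * F.card := by
        have e : 4 / c0 * (c0 / 4 * (X / K') ^ (2 / (a : ℝ))) = (X / K') ^ (2 / (a : ℝ)) := by
          field_simp
        rw [← e]
        exact mul_le_mul_of_nonneg_left h3 (by positivity)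
      calc ∑ x ∈ F, w x ≤ |C| * max (X / k) 1 ^ (2 / (a : ℝ)) := hs
        _ ≤ |C| * (B * (X / K') ^ (2 / (a : ℝ))) := mul_le_mul_of_nonneg_left h5 (abs_nonneg C)
        _ ≤ |C| * (B * (4 / c0 * F.card)) := by
            refine mul_le_mul_of_nonneg_left ?_ (abs_nonneg C)
            exact mul_le_mul_of_nonneg_left h6 hB0.le
        _ = |C| * B * (4 / c0) * F.card := by ring
        _ ≤ _ := mul_le_mul_of_nonneg_right (by linarith) (Nat.cast_nonneg _)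
    · have h3 : max (X / k) 1 ^ (2 / (a : ℝ)) ≤ B2 := by
        rw [hB2]
        refine Real.rpow_le_rpow (le_trans zero_le_one (le_max_right _ _)) ?_ he0.le
        exact max_le_max (div_le_div_of_nonneg_right hX.le hk.le) le_rfl
      calc ∑ x ∈ F, w x ≤ |C| * max (X / k) 1 ^ (2 / (a : ℝ)) := hs
        _ ≤ |C| * B2 := mul_le_mul_of_nonneg_left h3 (abs_nonneg C)
        _ ≤ (|C| * B2) * F.card := le_mul_of_one_le_right hp2 hF1
        _ ≤ _ := mul_le_mul_of_nonneg_right (by linarith) (Nat.cast_nonneg _)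

end Pool.Agent.H82.RO
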