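import Pool.Agent.W135.RT.Par6
import Pool.Agent.W605.RT.PAR4
import Pool.Agent.W261.RT.Iso

set_option autoImplicit false

/-!
# The curves and their parameters: discriminant, primes of bad reduction
-/

namespace Pool.Agent.H82.RO

open Finset Pool.Agent.W262.RK Pool.Agent.W307.RT

/-- the data attached to a curve `y² = x³ + A x + B` isomorphic to `y² = x (x + M) (x + N)` -/
structure RM (M N A B : ℤ) (s : ℚ) : Prop where
  s0 : s ≠ 0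
  m0 : M ≠ 0
  n0 : N ≠ 0
  mn : M ≠ N
  bz : ∃ x y : ℤ, x * M + y * N = 3
  ea : 3 * (A : ℚ) = -s ^ 4 * ((M : ℚ) ^ 2 - M * N + (N : ℚ) ^ 2)
  eb : 27 * (B : ℚ) = s ^ 6 * (((M : ℚ) + N) * (2 * M - N) * (M - 2 * N))
  im : ∃ i : ℤ, s ^ 2 * (M : ℚ) = i
  jn : ∃ j : ℤ, s ^ 2 * (N : ℚ) = j

/-- the minimality of the pair `(A, B)` -/
def Mn (A B : ℤ) : Prop := ∀ p : ℕ, p.Prime → ¬ ((p : ℤ) ^ 4 ∣ A ∧ (p : ℤ) ^ 6 ∣ B)

variable {M N A B : ℤ} {s : ℚ}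

theorem fin_eq (hR : RM M N A B s) :
    Module.finrank ℤ (Sh A B).toAffine.Point =
      Module.finrank ℤ (EAB (-M) (-N)).toAffine.Point := by
  set r : ℚ := s ^ 2 * ((M : ℚ) + N) / 3 with hr
  obtain ⟨e⟩ := Pool.Agent.W261.RT.iso 0 (A : ℚ) (B : ℚ) r s hR.s0
  have hs := hR.s0
  have h1 : (⟨0, (0 + 3 * r) / s ^ 2, 0, ((A : ℚ) + 2 * r * 0 + 3 * r ^ 2) / s ^ 4,
      ((B : ℚ) + r * A + r ^ 2 * 0 + r ^ 3) / s ^ 6⟩ : WeierstrassCurve ℚ) =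
      EAB (-M) (-N) := by
    have e1 : (0 + 3 * r) / s ^ 2 = (M : ℚ) + N := by
      rw [hr]; field_simp; ring
    have e2 : ((A : ℚ) + 2 * r * 0 + 3 * r ^ 2) / s ^ 4 = (M : ℚ) * N := by
      rw [div_eq_iff (pow_ne_zero 4 hs), hr]
      linear_combination (1 / 3) * hR.ea
    have e3 : ((B : ℚ) + r * A + r ^ 2 * 0 + r ^ 3) / s ^ 6 = 0 := by
      rw [div_eq_zero_iff]; left
      rw [hr]
      linear_combination (1 / 27) * hR.eb + (1 / 9) * s ^ 2 * ((M : ℚ) + N) * hR.ea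
    rw [e1, e2, e3]
    unfold EAB
    push_cast
    congr 1 <;> ring
  have h2 := (e.toIntLinearEquiv).finrank_eq
  have h3 : (Sh A B) = (⟨0, 0, 0, (A : ℚ), (B : ℚ)⟩ : WeierstrassCurve ℚ) := rfl
  rw [h3, h2, h1]

theorem rm_inj {A' B' : ℤ} {s' : ℚ} (hR : RM M N A B s) (hR' : RM M N A' B' s')
    (hmin : Mn A B) (hmin' : Mn A' B') : A = A' ∧ B = B' := by
  set σ : ℚ := s / s' with hσ
  have hs' := hR'.s0
  have hs : s = σ * s' := by rw [hσ]; field_simp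
  have h1 : (A : ℚ) = σ ^ 4 * A' := by
    have e1 := hR.ea
    have e2 := hR'.ea
    rw [hs] at e1
    linear_combination (1 / 3) * e1 - (1 / 3) * σ ^ 4 * e2
  have h2 : (B : ℚ) = σ ^ 6 * B' := by
    have e1 := hR.eb
    have e2 := hR'.eb
    rw [hs] at e1
    linear_combination (1 / 27) * e1 - (1 / 27) * σ ^ 6 * e2
  have hσ2 : σ * ((σ.den : ℤ) : ℚ) = (σ.num : ℚ) := by
    exact_mod_cast Rat.mul_den_eq_num σ
  have h3 : A * (σ.den : ℤ) ^ 4 = σ.num ^ 4 * A' := by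
    have : (A : ℚ) * ((σ.den : ℤ) : ℚ) ^ 4 = (σ.num : ℚ) ^ 4 * A' := by
      rw [h1, ← hσ2]; ring
    exact_mod_cast this
  have h4 : B * (σ.den : ℤ) ^ 6 = σ.num ^ 6 * B' := by
    have : (B : ℚ) * ((σ.den : ℤ) : ℚ) ^ 6 = (σ.num : ℚ) ^ 6 * B' := by
      rw [h2, ← hσ2]; ring
    exact_mod_cast this
  have hcop : IsCoprime (σ.den : ℤ) σ.num := by
    rw [Int.isCoprime_iff_gcd_eq_one, Int.gcd_comm]
    exact σ.reduced
  have h5 : ((σ.den : ℤ)).natAbs = 1 :=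
    Pool.Agent.W135.RT.minim hmin' _ _ hcop ⟨A, by rw [← h3]; ring⟩ ⟨B, by rw [← h4]; ring⟩
  have h6 : (σ.num).natAbs = 1 :=
    Pool.Agent.W135.RT.minim hmin _ _ hcop.symm ⟨A', by rw [← h3]; ring⟩ ⟨B', by rw [← h4]; ring⟩
  have h7 : (σ.den : ℤ) = 1 := by omega
  rw [h7] at h3 h4
  have h8 : σ.num = 1 ∨ σ.num = -1 := by omega
  rcases h8 with h8 | h8 <;> rw [h8] at h3 h4 <;> constructor <;> linarith

/-- the integers `i = s² M`, `j = s² N`, `n = 3 s²` -/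
theorem rm_ints (hR : RM M N A B s) : ∃ i j n : ℤ, 0 < n ∧ n * M = 3 * i ∧ n * N = 3 * j ∧
    3 * A = -(i ^ 2 - i * j + j ^ 2) ∧ 27 * B = (i + j) * (2 * i - j) * (i - 2 * j) ∧
    (n : ℚ) = 3 * s ^ 2 ∧ (∃ x y : ℤ, x * i + y * j = n) := by
  obtain ⟨i, hi⟩ := hR.im
  obtain ⟨j, hj⟩ := hR.jn
  obtain ⟨x, y, hxy⟩ := hR.bz
  have hxyq : (x : ℚ) * M + y * N = 3 := by exact_mod_cast hxy
  have hn : ((x * i + y * j : ℤ) : ℚ) = 3 * s ^ 2 := by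
    push_cast
    rw [← hi, ← hj]
    linear_combination s ^ 2 * hxyq
  have hs2 : 0 < s ^ 2 := by have := hR.s0; positivity
  refine ⟨i, j, x * i + y * j, ?_, ?_, ?_, ?_, ?_, hn, x, y, rfl⟩
  · have : (0 : ℚ) < ((x * i + y * j : ℤ) : ℚ) := by rw [hn]; positivity
    exact_mod_cast this
  · have : ((x * i + y * j : ℤ) : ℚ) * M = 3 * i := by rw [hn, ← hi]; ring
    exact_mod_cast this
  · have : ((x * i + y * j : ℤ) : ℚ) * N = 3 * j := by rw [hn, ← hj]; ring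
    exact_mod_cast this
  · have : 3 * (A : ℚ) = -((i : ℚ) ^ 2 - i * j + j ^ 2) := by
      rw [hR.ea, ← hi, ← hj]; ring
    exact_mod_cast this
  · have : 27 * (B : ℚ) = ((i : ℚ) + j) * (2 * i - j) * (i - 2 * j) := by
      rw [hR.eb, ← hi, ← hj]; ring
    exact_mod_cast this

/-- the discriminant -/
theorem disc_eq {i j : ℤ} (hA : 3 * A = -(i ^ 2 - i * j + j ^ 2))
    (hB : 27 * B = (i + j) * (2 * i - j) * (i - 2 * j)) :
    4 * A ^ 3 + 27 * B ^ 2 = -(i * j * (i - j)) ^ 2 := by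
  have : 27 * (4 * A ^ 3 + 27 * B ^ 2) = 27 * (-(i * j * (i - j)) ^ 2) := by
    have e : 27 * (4 * A ^ 3 + 27 * B ^ 2) = 4 * (3 * A) ^ 3 + (27 * B) ^ 2 := by ring
    rw [e, hA, hB]
    ring
  linarith

/-- the discriminant bounds the product of the parameters -/
theorem prod_le_disc (hR : RM M N A B s) :
    ((M * N * (M - N)).natAbs : ℝ) ^ 2 ≤ 3 ^ 6 * |((4 * A ^ 3 + 27 * B ^ 2 : ℤ) : ℝ)| := by
  obtain ⟨i, j, n, hn, hM, hN, hA, hB, -, -⟩ := rm_ints hR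
  rw [disc_eq hA hB]
  have h1 : n ^ 3 * (M * N * (M - N)) = 27 * (i * j * (i - j)) := by
    have : n ^ 3 * (M * N * (M - N)) = (n * M) * (n * N) * (n * M - n * N) := by ring
    rw [this, hM, hN]
    ring
  have h2 : (n : ℝ) ^ 3 * (((M * N * (M - N)) : ℤ) : ℝ) = 27 * ((i * j * (i - j) : ℤ) : ℝ) := by
    exact_mod_cast h1
  have h3 : ((M * N * (M - N)).natAbs : ℝ) ^ 2 = (((M * N * (M - N)) : ℤ) : ℝ) ^ 2 := by
    rw [Nat.cast_natAbs, Int.cast_abs, sq_abs]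
  have h4 : |((-(i * j * (i - j)) ^ 2 : ℤ) : ℝ)| = ((i * j * (i - j) : ℤ) : ℝ) ^ 2 := by
    push_cast
    rw [abs_neg, abs_of_nonneg (by positivity)]
  rw [h3, h4]
  obtain ⟨X, hX⟩ : ∃ X : ℝ, X = (((M * N * (M - N)) : ℤ) : ℝ) := ⟨_, rfl⟩
  obtain ⟨Y, hY⟩ : ∃ Y : ℝ, Y = ((i * j * (i - j) : ℤ) : ℝ) := ⟨_, rfl⟩
  rw [← hX, ← hY]
  rw [← hX, ← hY] at h2
  have hn1 : (1 : ℝ) ≤ (n : ℝ) ^ 3 := one_le_pow₀ (by exact_mod_cast hn)
  have h5 : ((n : ℝ) ^ 3 * X) ^ 2 = 3 ^ 6 * Y ^ 2 := by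
    rw [h2]
    ring
  have h6 : X ^ 2 ≤ ((n : ℝ) ^ 3 * X) ^ 2 := by
    rw [mul_pow]
    exact le_mul_of_one_le_left (by positivity) (one_le_pow₀ hn1)
  linarith

/-- a prime `p ≥ 5` does not divide `3 s²` -/
theorem not_dvd_n (hmin : Mn A B) {i j n : ℤ} (hM : n * M = 3 * i)
    (hN : n * N = 3 * j) (hA : 3 * A = -(i ^ 2 - i * j + j ^ 2))
    (hB : 27 * B = (i + j) * (2 * i - j) * (i - 2 * j)) (hn : (n : ℚ) = 3 * s ^ 2) {p : ℕ}
    (hp : p.Prime) (hp5 : 5 ≤ p) : ¬ (p : ℤ) ∣ n := by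
  intro hpn
  have hpi : Prime (p : ℤ) := Nat.prime_iff_prime_int.1 hp
  have hc3 : IsCoprime (p : ℤ) 3 := by
    rw [Int.isCoprime_iff_gcd_eq_one]
    have : Nat.Coprime p 3 := (Nat.coprime_primes hp (by norm_num)).2 (by omega)
    exact this
  -- `3 s` is an integer
  obtain ⟨g, hg⟩ : ∃ g : ℤ, (g : ℚ) = 3 * s := by
    refine Pool.Agent.W605.RT.int_sqrt (M := 3 * n) (m := 3 * s) ?_
    push_cast
    rw [hn]
    ring
  have hg2 : g ^ 2 = 3 * n := by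
    have : (g : ℚ) ^ 2 = 3 * n := by rw [hg, hn]; ring
    exact_mod_cast this
  have h1 : (p : ℤ) ∣ g := hpi.dvd_of_dvd_pow (by rw [hg2]; exact hpn.mul_left 3)
  have h2 : (p : ℤ) ^ 2 ∣ n := by
    have : (p : ℤ) ^ 2 ∣ 3 * n := by rw [← hg2]; exact pow_dvd_pow_of_dvd h1 2
    exact (IsCoprime.pow_left hc3).dvd_of_dvd_mul_left this
  have hi : (p : ℤ) ^ 2 ∣ i := by
    have : (p : ℤ) ^ 2 ∣ 3 * i := by rw [← hM]; exact h2.mul_right _
    exact (IsCoprime.pow_left hc3).dvd_of_dvd_mul_left this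
  have hj : (p : ℤ) ^ 2 ∣ j := by
    have : (p : ℤ) ^ 2 ∣ 3 * j := by rw [← hN]; exact h2.mul_right _
    exact (IsCoprime.pow_left hc3).dvd_of_dvd_mul_left this
  obtain ⟨i', rfl⟩ := hi
  obtain ⟨j', rfl⟩ := hj
  refine hmin p hp ⟨?_, ?_⟩
  · have : (p : ℤ) ^ 4 ∣ 3 * A := ⟨-(i' ^ 2 - i' * j' + j' ^ 2), by rw [hA]; ring⟩
    exact (IsCoprime.pow_left hc3).dvd_of_dvd_mul_left this
  · have : (p : ℤ) ^ 6 ∣ 27 * B := ⟨(i' + j') * (2 * i' - j') * (i' - 2 * j'), by rw [hB]; ring⟩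
    have hc27 : IsCoprime ((p : ℤ) ^ 6) 27 := by
      have : (27 : ℤ) = 3 ^ 3 := by norm_num
      rw [this]
      exact IsCoprime.pow hc3
    exact hc27.dvd_of_dvd_mul_left this

/-- the primes `p ≥ 5` of bad reduction, and the reduction is multiplicative -/
theorem bad_prime (hR : RM M N A B s) (hmin : Mn A B) {p : ℕ} (hp : p.Prime) (hp5 : 5 ≤ p) :
    ((p : ℤ) ∣ 4 * A ^ 3 + 27 * B ^ 2 ↔ (p : ℤ) ∣ M * N * (M - N)) ∧
    ((p : ℤ) ∣ 4 * A ^ 3 + 27 * B ^ 2 → ¬ (p : ℤ) ∣ A) := by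
  obtain ⟨i, j, n, hn0, hM, hN, hA, hB, hn, x, y, hxy⟩ := rm_ints hR
  have hpn := not_dvd_n hmin hM hN hA hB hn hp hp5
  have hpi : Prime (p : ℤ) := Nat.prime_iff_prime_int.1 hp
  have hp3 : ¬ (p : ℤ) ∣ 3 := by
    intro h
    have := Int.le_of_dvd (by norm_num) h
    omega
  rw [disc_eq hA hB]
  have h1 : n ^ 3 * (M * N * (M - N)) = 3 ^ 3 * (i * j * (i - j)) := by
    have : n ^ 3 * (M * N * (M - N)) = (n * M) * (n * N) * (n * M - n * N) := by ring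
    rw [this, hM, hN]
    ring
  have h2 : (p : ℤ) ∣ -(i * j * (i - j)) ^ 2 ↔ (p : ℤ) ∣ i * j * (i - j) := by
    rw [dvd_neg]
    exact ⟨fun h => hpi.dvd_of_dvd_pow h, fun h => h.trans (dvd_pow_self _ (by norm_num))⟩
  refine ⟨?_, ?_⟩
  · rw [h2]
    constructor
    · intro h
      have h3 : (p : ℤ) ∣ n ^ 3 * (M * N * (M - N)) := by rw [h1]; exact h.mul_left _
      rcases hpi.dvd_or_dvd h3 with h4 | h4
      · exact absurd (hpi.dvd_of_dvd_pow h4) hpn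
      · exact h4
    · intro h
      have h3 : (p : ℤ) ∣ 3 ^ 3 * (i * j * (i - j)) := by rw [← h1]; exact h.mul_left _
      rcases hpi.dvd_or_dvd h3 with h4 | h4
      · exact absurd (hpi.dvd_of_dvd_pow h4) hp3
      · exact h4
  · rw [h2]
    intro h hA'
    have h3 : (p : ℤ) ∣ i ^ 2 - i * j + j ^ 2 := by
      have : (p : ℤ) ∣ 3 * A := hA'.mul_left 3
      rw [hA, dvd_neg] at this
      exact this
    have hij : ¬ ((p : ℤ) ∣ i ∧ (p : ℤ) ∣ j) := by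
      rintro ⟨a, b⟩
      apply hpn
      rw [← hxy]
      exact dvd_add (a.mul_left _) (b.mul_left _)
    rcases hpi.dvd_or_dvd h with h4 | h4
    · rcases hpi.dvd_or_dvd h4 with h5 | h5
      · have : (p : ℤ) ∣ j ^ 2 := by
          have e : j ^ 2 = (i ^ 2 - i * j + j ^ 2) - i * (i - j) := by ring
          rw [e]
          exact dvd_sub h3 (h5.mul_right _)
        exact hij ⟨h5, hpi.dvd_of_dvd_pow this⟩
      · have : (p : ℤ) ∣ i ^ 2 := by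
          have e : i ^ 2 = (i ^ 2 - i * j + j ^ 2) - j * (j - i) := by ring
          rw [e]
          exact dvd_sub h3 (h5.mul_right _)
        exact hij ⟨hpi.dvd_of_dvd_pow this, h5⟩
    · have : (p : ℤ) ∣ i ^ 2 := by
        have e : i ^ 2 = (i ^ 2 - i * j + j ^ 2) + j * (i - j) := by ring
        rw [e]
        exact dvd_add h3 (h4.mul_left _)
      have h6 := hpi.dvd_of_dvd_pow this
      refine hij ⟨h6, ?_⟩
      have e : j = i - (i - j) := by ring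
      rw [e]
      exact dvd_sub h6 h4

end Pool.Agent.H82.RO
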