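import Pool.Agent.H82.RO.Mom
import Pool.Agent.TH867.QF.Basic

set_option autoImplicit false

/-!
# Weighted sums over the points of the projective line, ordered by a product of linear forms
-/

namespace Pool.Agent.H82.RO

open Finset
open Pool.Agent.TH867.QF (Fm va ev Rs Rs_pos Pt U U_pos ht ht_pos ht_le va_pos)

/-- points with a small value of a form -/
lemma strip_count {d : ℕ} (L : Fm (d + 3)) (i : Fin (d + 3)) (t T : ℝ) (hT : 1 ≤ T)
    (F : Finset (ℤ × ℤ)) (hF : ∀ P ∈ F, ev L P i ≠ 0 ∧ (va L P i : ℝ) ≤ t ∧ (ht P : ℝ) ≤ T) :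
    (F.card : ℝ) ≤ 6 * |t| * T := by
  classical
  rcases F.eq_empty_or_nonempty with he | ⟨P0, hP0⟩
  · rw [he, card_empty]
    push_cast
    positivity
  have ht1 : 1 ≤ t := by
    obtain ⟨a, b, -⟩ := hF P0 hP0
    have : (1 : ℝ) ≤ (va L P0 i : ℝ) := by exact_mod_cast Int.natAbs_pos.2 a
    linarith
  have ht0 : 0 ≤ t := by linarith
  have hT0 : 0 ≤ T := by linarith
  rw [abs_of_nonneg ht0]
  obtain ⟨a, ha⟩ : ∃ a : ℕ, a = ⌊t⌋₊ := ⟨_, rfl⟩
  obtain ⟨b, hb⟩ : ∃ b : ℕ, b = ⌊T⌋₊ := ⟨_, rfl⟩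
  have hat : (a : ℝ) ≤ t := by rw [ha]; exact Nat.floor_le ht0
  have hbT : (b : ℝ) ≤ T := by rw [hb]; exact Nat.floor_le hT0
  have hcard : F.card ≤ (((Icc (-(a : ℤ)) a).erase 0) ×ˢ (Icc (-(b : ℤ)) b)).card := by
    have hmem : ∀ P ∈ F, ev L P i ∈ (Icc (-(a : ℤ)) a).erase 0 ∧ P.1 ∈ Icc (-(b : ℤ)) b ∧
        P.2 ∈ Icc (-(b : ℤ)) b := by
      intro P hP
      obtain ⟨h1, h2, h3⟩ := hF P hP
      have h4 : va L P i ≤ a := by rw [ha]; exact Nat.le_floor h2
      have h5 : ht P ≤ b := by rw [hb]; exact Nat.le_floor h3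
      have h6 : P.1.natAbs ≤ b := (le_max_left _ _).trans h5
      have h7 : P.2.natAbs ≤ b := (le_max_right _ _).trans h5
      have h8 : (ev L P i).natAbs ≤ a := h4
      refine ⟨mem_erase.2 ⟨h1, mem_Icc.2 ⟨by omega, by omega⟩⟩, mem_Icc.2 ⟨by omega, by omega⟩,
        mem_Icc.2 ⟨by omega, by omega⟩⟩
    by_cases hw : L.w i = 0
    · have hu : L.u i ≠ 0 := by
        intro hu
        obtain ⟨j, hj⟩ : ∃ j : Fin (d + 3), i ≠ j := by
          by_cases h : i = 0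
          · refine ⟨1, ?_⟩
            rw [h]
            intro h'
            have := congrArg Fin.val h'
            simp at this
          · exact ⟨0, h⟩
        exact L.res i j hj (by rw [hu, hw]; ring)
      refine card_le_card_of_injOn (fun P => (ev L P i, P.2)) ?_ ?_
      · intro P hP
        rw [mem_coe, mem_product]
        exact ⟨(hmem P hP).1, (hmem P hP).2.2⟩
      · intro P _ Q _ hPQ
        simp only [Prod.mk.injEq] at hPQ
        obtain ⟨h1, h2⟩ := hPQ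
        refine Prod.ext ?_ h2
        unfold ev at h1
        rw [hw] at h1
        exact mul_left_cancel₀ hu (by linarith)
    · refine card_le_card_of_injOn (fun P => (ev L P i, P.1)) ?_ ?_
      · intro P hP
        rw [mem_coe, mem_product]
        exact ⟨(hmem P hP).1, (hmem P hP).2.1⟩
      · intro P _ Q _ hPQ
        simp only [Prod.mk.injEq] at hPQ
        obtain ⟨h1, h2⟩ := hPQ
        refine Prod.ext h2 ?_
        unfold ev at h1
        rw [h2] at h1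
        exact mul_left_cancel₀ hw (by linarith)
  have hc2 : (((Icc (-(a : ℤ)) a).erase 0) ×ˢ (Icc (-(b : ℤ)) b)).card = (2 * a) * (2 * b + 1) := by
    rw [card_product, card_erase_of_mem (mem_Icc.2 ⟨by omega, by omega⟩), Int.card_Icc,
      Int.card_Icc]
    have e1 : ((a : ℤ) + 1 - -(a : ℤ)).toNat = 2 * a + 1 := by omega
    have e2 : ((b : ℤ) + 1 - -(b : ℤ)).toNat = 2 * b + 1 := by omega
    rw [e1, e2]
    simp
  rw [hc2] at hcard
  have h1 : (F.card : ℝ) ≤ (2 * a) * (2 * b + 1) := by exact_mod_cast hcard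
  calc (F.card : ℝ) ≤ (2 * a) * (2 * b + 1) := h1
    _ ≤ (2 * t) * (2 * T + T) := by
        refine mul_le_mul (by linarith) (by linarith) (by positivity) (by linarith)
    _ = _ := by ring

/-- **Points near the cusps.** -/
theorem cusp_count {d : ℕ} (L : Fm (d + 3)) (μ : Fin (d + 3) → ℕ) (hμ : ∀ i, 1 ≤ μ i)
    (hμ3 : ∀ i, 3 * μ i ≤ ∑ j, μ j) : ∃ C : ℝ, 1 ≤ C ∧ ∀ y H : ℝ, 1 ≤ y → y ≤ H →
    ∀ F : Finset (ℤ × ℤ), (∀ P ∈ F, Pt L P ∧ ∏ i, (va L P i : ℝ) ^ (μ i) ≤ y ^ (∑ j, μ j) ∧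
      H < (ht P : ℝ) ∧ (ht P : ℝ) ≤ 2 * H) → (F.card : ℝ) ≤ C * (y ^ 3 / H) := by
  classical
  obtain ⟨D, hD⟩ : ∃ D : ℕ, D = ∑ j, μ j := ⟨_, rfl⟩
  obtain ⟨u, hu⟩ : ∃ u : ℝ, u = (U L : ℝ) := ⟨_, rfl⟩
  have hu1 : 1 ≤ u := by rw [hu]; exact_mod_cast U_pos L
  have hu0 : 0 < u := by linarith
  have huD : 1 ≤ u ^ D := one_le_pow₀ hu1
  rw [← hD] at hμ3 ⊢
  refine ⟨(d + 3) * (12 * u ^ D), ?_, fun y H hy hH F hF => ?_⟩
  · have : (0 : ℝ) ≤ d := Nat.cast_nonneg d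
    nlinarith
  have hy0 : 0 < y := by linarith
  have hH0 : 0 < H := by linarith
  obtain ⟨t, ht'⟩ : ∃ t : ℝ, t = u ^ D * (y ^ 3 / H ^ 2) := ⟨_, rfl⟩
  have ht0 : 0 < t := by rw [ht']; positivity
  -- one form is small
  have hone : ∀ P ∈ F, ∃ i, (va L P i : ℝ) ≤ t := by
    intro P hP
    obtain ⟨hpt, hprod, hH1, hH2⟩ := hF P hP
    obtain ⟨i, -, hi⟩ := exists_min_image (univ : Finset (Fin (d + 3))) (fun j => va L P j)
      ⟨0, mem_univ _⟩
    refine ⟨i, ?_⟩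
    obtain ⟨h, hh⟩ : ∃ h : ℝ, h = (ht P : ℝ) := ⟨_, rfl⟩
    rw [← hh] at hH1 hH2
    have hh0 : 0 < h := by linarith
    obtain ⟨v, hv⟩ : ∃ v : ℝ, v = (va L P i : ℝ) := ⟨_, rfl⟩
    have hv0 : 0 < v := by rw [hv]; exact_mod_cast va_pos hpt i
    have hj : ∀ j ∈ univ.erase i, h / u ≤ (va L P j : ℝ) := by
      intro j hj
      have hne : i ≠ j := (ne_of_mem_erase hj).symm
      have h1 := ht_le L P hne
      rw [max_eq_right (hi j (mem_univ j))] at h1
      rw [div_le_iff₀ hu0, hh, hu, mul_comm]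
      exact_mod_cast h1
    have hprod2 : v ^ (μ i) * (h / u) ^ (D - μ i) ≤ y ^ D := by
      refine le_trans ?_ hprod
      rw [← mul_prod_erase univ _ (mem_univ i), ← hv]
      refine mul_le_mul_of_nonneg_left ?_ (by positivity)
      have e : D - μ i = ∑ j ∈ univ.erase i, μ j := by
        rw [hD, ← add_sum_erase univ μ (mem_univ i)]
        simp
      rw [e, ← prod_pow_eq_pow_sum]
      refine prod_le_prod (fun j _ => by positivity) fun j hj' => ?_
      exact pow_le_pow_left₀ (by positivity) (hj j hj') _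
    by_contra hcon
    rw [not_le, ← hv] at hcon
    obtain ⟨w, hw⟩ : ∃ w : ℝ, w = y / h := ⟨_, rfl⟩
    have hw0 : 0 < w := by rw [hw]; positivity
    have hw1 : w ≤ 1 := by rw [hw, div_le_one hh0]; linarith
    have hwh : w * h = y := by rw [hw]; field_simp
    have hlt : u ^ D * h * w ^ 3 < v := by
      refine lt_of_le_of_lt ?_ hcon
      rw [ht', mul_assoc]
      refine mul_le_mul_of_nonneg_left ?_ (by positivity)
      have e1 : h * w ^ 3 = y ^ 3 / h ^ 2 := by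
        rw [hw]; field_simp
      rw [e1]
      refine div_le_div_of_nonneg_left (by positivity) (by positivity) ?_
      exact pow_le_pow_left₀ hH0.le hH1.le 2
    have hμi := hμ i
    have hμi3 := hμ3 i
    have h1 : (u ^ D * h * w ^ 3) ^ (μ i) < v ^ (μ i) :=
      pow_lt_pow_left₀ hlt (by positivity) (by omega)
    have h2 : u ^ D * h ^ (μ i) * w ^ D ≤ (u ^ D * h * w ^ 3) ^ (μ i) := by
      rw [mul_pow, mul_pow]
      refine mul_le_mul (mul_le_mul_of_nonneg_right ?_ (by positivity)) ?_ (by positivity)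
        (by positivity)
      · exact le_self_pow₀ huD (by omega)
      · rw [← pow_mul]
        exact pow_le_pow_of_le_one hw0.le hw1 hμi3
    have h3 : y ^ D ≤ (u ^ D * h ^ (μ i) * w ^ D) * (h / u) ^ (D - μ i) := by
      have e1 : (h / u) ^ (D - μ i) * u ^ (D - μ i) = h ^ (D - μ i) := by
        rw [← mul_pow]
        congr 1
        field_simp
      have e2 : u ^ (D - μ i) * u ^ (μ i) = u ^ D := by
        rw [← pow_add]
        congr 1
        omega
      have e3 : h ^ (D - μ i) * h ^ (μ i) = h ^ D := by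
        rw [← pow_add]
        congr 1
        omega
      have e4 : (u ^ D * h ^ (μ i) * w ^ D) * (h / u) ^ (D - μ i) = u ^ (μ i) * (w * h) ^ D := by
        rw [← e2]
        calc (u ^ (D - μ i) * u ^ (μ i) * h ^ (μ i) * w ^ D) * (h / u) ^ (D - μ i)
            = u ^ (μ i) * (w ^ D * (((h / u) ^ (D - μ i) * u ^ (D - μ i)) * h ^ (μ i))) := by ring
          _ = _ := by rw [e1, e3, mul_pow]
      rw [e4, hwh]
      exact le_mul_of_one_le_left (by positivity) (one_le_pow₀ hu1)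
    have h4 : (u ^ D * h ^ (μ i) * w ^ D) * (h / u) ^ (D - μ i) <
        v ^ (μ i) * (h / u) ^ (D - μ i) :=
      mul_lt_mul_of_pos_right (lt_of_le_of_lt h2 h1) (by positivity)
    linarith
  -- the count
  have hcov : F ⊆ (univ : Finset (Fin (d + 3))).biUnion
      (fun i => F.filter (fun P => (va L P i : ℝ) ≤ t)) := by
    intro P hP
    obtain ⟨i, hi⟩ := hone P hP
    exact mem_biUnion.2 ⟨i, mem_univ i, mem_filter.2 ⟨hP, hi⟩⟩
  have hc : ∀ i : Fin (d + 3), ((F.filter (fun P => (va L P i : ℝ) ≤ t)).card : ℝ) ≤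
      12 * u ^ D * (y ^ 3 / H) := by
    intro i
    have h1 := strip_count L i t (2 * H) (by linarith) (F.filter (fun P => (va L P i : ℝ) ≤ t))
      (fun P hP => by
        obtain ⟨a, b⟩ := mem_filter.1 hP
        exact ⟨(hF P a).1.ne i, b, (hF P a).2.2.2⟩)
    rw [abs_of_pos ht0] at h1
    refine h1.trans (le_of_eq ?_)
    rw [ht']
    field_simp
    ring
  have h1 : (F.card : ℝ) ≤ ∑ i : Fin (d + 3), ((F.filter (fun P => (va L P i : ℝ) ≤ t)).card : ℝ) := by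
    exact_mod_cast (card_le_card hcov).trans card_biUnion_le
  refine h1.trans ((sum_le_sum fun i _ => hc i).trans (le_of_eq ?_))
  rw [sum_const, card_univ, Fintype.card_fin, nsmul_eq_mul]
  push_cast
  ring

/-- **The weighted count by a product of linear forms.** -/
theorem weighted_prod {d : ℕ} (L : Fm (d + 3)) (μ : Fin (d + 3) → ℕ) (hμ : ∀ i, 1 ≤ μ i)
    (hμ3 : ∀ i, 3 * μ i ≤ ∑ j, μ j) (m : ℝ) (hm : 3 < m) (f : ℤ × ℤ → ℝ)
    (hf : ∀ P, 0 ≤ f P) (G : ℝ)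
    (hmom : ∀ T : ℝ, 1 ≤ T → ∀ F : Finset (ℤ × ℤ), (∀ P ∈ F, Pt L P ∧ (ht P : ℝ) ≤ T) →
      ∑ P ∈ F, f P ^ m ≤ G * T ^ 2 ∧ ∑ P ∈ F, f P ≤ G * T ^ 2) :
    ∃ C : ℝ, 0 < C ∧ ∀ y : ℝ, 1 ≤ y → ∀ F : Finset (ℤ × ℤ),
      (∀ P ∈ F, Pt L P ∧ ∏ i, (va L P i : ℝ) ^ (μ i) ≤ y ^ (∑ j, μ j)) →
      ∑ P ∈ F, f P ≤ C * y ^ 2 := by
  classical
  obtain ⟨C1, hC1, hcu⟩ := cusp_count L μ hμ hμ3
  obtain ⟨C2, hC2, hsh⟩ := shells m 1 (by linarith) (by linarith)
  obtain ⟨B, hB⟩ : ∃ B : ℝ, B = C1 + |G| := ⟨_, rfl⟩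
  have hB1 : 1 ≤ B := by
    rw [hB]
    have := abs_nonneg G
    linarith
  have hBG : G ≤ B := by
    rw [hB]
    have := le_abs_self G
    linarith
  have hBC : C1 ≤ B := by
    rw [hB]
    have := abs_nonneg G
    linarith
  refine ⟨C2 * B, by positivity, fun y hy F hF => ?_⟩
  have hy0 : 0 < y := by linarith
  refine hsh (ℤ × ℤ) F (fun P => (ht P : ℝ)) f y B hy hB1 (fun P _ => hf P) ?_ ?_ ?_
  · intro T hT
    refine ((hmom T hT _ fun P hP => ?_).1).trans ?_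
    · obtain ⟨a, b⟩ := mem_filter.1 hP
      exact ⟨(hF P a).1, b⟩
    · exact mul_le_mul_of_nonneg_right hBG (by positivity)
  · refine ((hmom y hy _ fun P hP => ?_).2).trans ?_
    · obtain ⟨a, b⟩ := mem_filter.1 hP
      exact ⟨(hF P a).1, b⟩
    · exact mul_le_mul_of_nonneg_right hBG (by positivity)
  · intro k
    have h2 : (1 : ℝ) ≤ 2 ^ k := one_le_pow₀ (by norm_num)
    have h1 := hcu y (y * 2 ^ k) hy (le_mul_of_one_le_right hy0.le h2)
      (F.filter (fun P => y * 2 ^ k < (ht P : ℝ) ∧ (ht P : ℝ) ≤ y * 2 ^ (k + 1))) (fun P hP => by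
        obtain ⟨a, b, c⟩ := mem_filter.1 hP
        refine ⟨(hF P a).1, (hF P a).2, b, c.trans (le_of_eq ?_)⟩
        rw [pow_succ]
        ring)
    refine h1.trans ?_
    have e : y ^ 3 / (y * 2 ^ k) = y ^ 2 * ((2 : ℝ) ^ (-(1 : ℝ))) ^ k := by
      rw [Real.rpow_neg_one, inv_pow]
      field_simp
    rw [e, ← mul_assoc]
    refine mul_le_mul_of_nonneg_right ?_ (by positivity)
    exact mul_le_mul_of_nonneg_right hBC (by positivity)

end Pool.Agent.H82.RO
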