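import Pool.Agent.H82.RO.Wrad
import Pool.Agent.H82.RO.Wprod
import Pool.Agent.H82.RO.Rel
import Pool.Agent.H82.RO.Rk
import Pool.Agent.H82.RO.Fin
import Pool.Agent.W307.RT.Box

set_option autoImplicit false

/-!
# Families of elliptic curves parametrized by binary forms that are products of linear forms
-/

namespace Pool.Agent.H82.RO

open Finset Pool.Agent.W262.RK Pool.Agent.W307.RT Filter
open Pool.Agent.TH867.SQ (lr log_nn)
open Pool.Agent.TH867.QF (Fm va ev rs Rs Rs_pos Pt U U_pos ht ht_pos va_le va_pos dvd_rs)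

/-- the minimal pairs of the curves with a subgroup `Z/2 x Z/m` -/
def Fam (m : ℕ) : Set (ℤ × ℤ) :=
  {c | 4 * c.1 ^ 3 + 27 * c.2 ^ 2 ≠ 0 ∧ Mn c.1 c.2 ∧ HasT m (Sh c.1 c.2)}

/-- the absolute value of the discriminant -/
def Dsc (c : ℤ × ℤ) : ℕ := (4 * c.1 ^ 3 + 27 * c.2 ^ 2).natAbs

/-- the prime-to-6 part of the conductor -/
def Cond6 (c : ℤ × ℤ) : ℕ :=
  ∏ p ∈ (Dsc c).primeFactors.filter (fun p => 5 ≤ p), if (p : ℤ) ∣ c.1 then p ^ 2 else p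

/-- the height -/
def Hgt (c : ℤ × ℤ) : ℕ := max (4 * c.1.natAbs ^ 3) (27 * c.2.natAbs ^ 2)

/-- the weight -/
noncomputable def W (c : ℤ × ℤ) : ℝ := (5 / 4 : ℝ) ^ Module.finrank ℤ (Sh c.1 c.2).toAffine.Point

theorem one_le_W (c : ℤ × ℤ) : 1 ≤ W c := one_le_pow₀ (by norm_num)

/-- the data of a family -/
structure Data (m d : ℕ) (L : Fm (d + 3)) (μ : Fin (d + 3) → ℕ) (M N : ℤ → ℤ → ℤ) : Prop where
  mu1 : ∀ i, 1 ≤ μ i
  mu3 : ∀ i, 3 * μ i ≤ ∑ j, μ j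
  prod : ∀ P : ℤ × ℤ, M P.1 P.2 * N P.1 P.2 * (M P.1 P.2 - N P.1 P.2) = ∏ i, ev L P i ^ μ i
  res : ∀ i j, i ≠ j → ∀ p : ℕ, p.Prime → 5 ≤ p → ¬ (p : ℤ) ∣ rs L i j
  box : ∃ C : ℝ, 0 ≤ C ∧ ∀ T : ℕ, 1 ≤ T → ∑ t ∈ (Box T).filter (fun t : ℤ × ℤ =>
      IsCoprime t.1 t.2 ∧ M t.1 t.2 ≠ 0 ∧ N t.1 t.2 ≠ 0 ∧ M t.1 t.2 ≠ N t.1 t.2),
      (2 : ℝ) ^ Module.finrank ℤ (EAB (-(M t.1 t.2)) (-(N t.1 t.2))).toAffine.Point ≤
        C * (T : ℝ) ^ 2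
  low : LOW m (2 * ∑ j, μ j)
  par : ∃ (C0 : ℕ) (F : ℤ × ℤ → ℤ × ℤ), ∀ c ∈ Fam m, IsCoprime (F c).1 (F c).2 ∧
    (∃ s : ℚ, RM (M (F c).1 (F c).2) (N (F c).1 (F c).2) c.1 c.2 s) ∧
    ∀ H : ℕ, 4 * |c.1| ^ 3 ≤ (H : ℤ) → (F c).1.natAbs ^ (2 * ∑ j, μ j) ≤ C0 * H ∧
      (F c).2.natAbs ^ (2 * ∑ j, μ j) ≤ C0 * H

variable {m d : ℕ} {L : Fm (d + 3)} {μ : Fin (d + 3) → ℕ} {M N : ℤ → ℤ → ℤ}

/-- the weight of a point -/
noncomputable def fw (M N : ℤ → ℤ → ℤ) (P : ℤ × ℤ) : ℝ :=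
  (5 / 4 : ℝ) ^ Module.finrank ℤ (EAB (-(M P.1 P.2)) (-(N P.1 P.2))).toAffine.Point

theorem fw_le (M N : ℤ → ℤ → ℤ) (P : ℤ × ℤ) : fw M N P ≤
    (2 : ℝ) ^ Module.finrank ℤ (EAB (-(M P.1 P.2)) (-(N P.1 P.2))).toAffine.Point :=
  pow_le_pow_left₀ (by norm_num) (by norm_num) _

theorem fw_pow_le (M N : ℤ → ℤ → ℤ) (P : ℤ × ℤ) : fw M N P ^ ((31 : ℝ) / 10) ≤
    (2 : ℝ) ^ Module.finrank ℤ (EAB (-(M P.1 P.2)) (-(N P.1 P.2))).toAffine.Point := by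
  unfold fw
  rw [← Real.rpow_natCast, ← Real.rpow_mul (by norm_num), mul_comm, Real.rpow_mul (by norm_num),
    Real.rpow_natCast]
  refine pow_le_pow_left₀ (by positivity) ?_ _
  have h : ((5 / 4 : ℝ) ^ ((31 : ℝ) / 10)) ^ (10 : ℕ) ≤ 2 ^ (10 : ℕ) := by
    rw [← Real.rpow_natCast, ← Real.rpow_mul (by norm_num)]
    have : ((31 : ℝ) / 10 * ((10 : ℕ) : ℝ)) = ((31 : ℕ) : ℝ) := by norm_num
    rw [this, Real.rpow_natCast]
    norm_num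
  exact le_of_pow_le_pow_left₀ (by norm_num) (by norm_num) h

theorem fw_mom (h : Data m d L μ M N) : ∃ G : ℝ, ∀ T : ℝ, 1 ≤ T → ∀ F : Finset (ℤ × ℤ),
    (∀ P ∈ F, Pt L P ∧ (ht P : ℝ) ≤ T) →
      ∑ P ∈ F, fw M N P ^ ((31 : ℝ) / 10) ≤ G * T ^ 2 ∧ ∑ P ∈ F, fw M N P ≤ G * T ^ 2 := by
  classical
  obtain ⟨C, hC, hb⟩ := h.box
  refine ⟨C, fun T hT F hF => ?_⟩
  have hT0 : 0 ≤ T := by linarith
  have hn1 : 1 ≤ ⌊T⌋₊ := Nat.le_floor (by simpa using hT)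
  have hnT : (⌊T⌋₊ : ℝ) ≤ T := Nat.floor_le hT0
  have h1 := hb ⌊T⌋₊ hn1
  have hsub : F ⊆ (Box ⌊T⌋₊).filter (fun t : ℤ × ℤ =>
      IsCoprime t.1 t.2 ∧ M t.1 t.2 ≠ 0 ∧ N t.1 t.2 ≠ 0 ∧ M t.1 t.2 ≠ N t.1 t.2) := by
    intro P hP
    obtain ⟨hpt, hht⟩ := hF P hP
    have hht' : ht P ≤ ⌊T⌋₊ := Nat.le_floor hht
    have hne : M P.1 P.2 * N P.1 P.2 * (M P.1 P.2 - N P.1 P.2) ≠ 0 := by
      rw [h.prod]
      exact prod_ne_zero_iff.2 fun i _ => pow_ne_zero _ (hpt.ne i)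
    refine mem_filter.2 ⟨mem_Box.2 ⟨(le_max_left _ _).trans hht', (le_max_right _ _).trans hht'⟩,
      hpt.cop, ?_, ?_, ?_⟩
    · intro h0; apply hne; rw [h0]; ring
    · intro h0; apply hne; rw [h0]; ring
    · intro h0; apply hne; rw [h0]; ring
  have h2 : ∑ P ∈ F, (2 : ℝ) ^ Module.finrank ℤ
      (EAB (-(M P.1 P.2)) (-(N P.1 P.2))).toAffine.Point ≤ C * T ^ 2 := by
    refine (sum_le_sum_of_subset_of_nonneg hsub fun _ _ _ => by positivity).trans (h1.trans ?_)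
    exact mul_le_mul_of_nonneg_left (pow_le_pow_left₀ (Nat.cast_nonneg _) hnT 2) hC
  exact ⟨(sum_le_sum fun P _ => fw_pow_le M N P).trans h2,
    (sum_le_sum fun P _ => fw_le M N P).trans h2⟩

theorem fw_pt (h : Data m d L μ M N) (ε : ℝ) (hε : 0 < ε) : ∃ C : ℝ, ∀ X : ℝ, 1 ≤ X → ∀ P,
    Pt L P → ∑ i, lr (va L P i) ≤ Real.log X → fw M N P ≤ C * X ^ ε := by
  obtain ⟨C, hC, h1⟩ := rank_point L μ M N h.prod ε hε
  refine ⟨C, fun X hX P hP hl => ?_⟩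
  have hX0 : 0 < X := by linarith
  refine (fw_le M N P).trans ((h1 P hP).trans ?_)
  refine mul_le_mul_of_nonneg_left ?_ hC.le
  rw [Real.rpow_def_of_pos hX0, mul_comm (Real.log X) ε]
  exact Real.exp_le_exp.2 (mul_le_mul_of_nonneg_left hl hε.le)

/-- the primes `p ≥ 5` of a value -/
def Si (L : Fm (d + 3)) (P : ℤ × ℤ) (i : Fin (d + 3)) : Finset ℕ :=
  (va L P i).primeFactors.filter (fun p => 5 ≤ p)

theorem si_disj (h : Data m d L μ M N) {P : ℤ × ℤ} (hP : Pt L P) :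
    ((univ : Finset (Fin (d + 3))) : Set (Fin (d + 3))).PairwiseDisjoint (Si L P) := by
  intro i _ j _ hij
  rw [Function.onFun, Finset.disjoint_left]
  intro p hp hp'
  obtain ⟨a, a5⟩ := mem_filter.1 hp
  obtain ⟨b, -⟩ := mem_filter.1 hp'
  have hpp := Nat.prime_of_mem_primeFactors a
  refine h.res i j hij p hpp a5 (dvd_rs hP ?_ ?_)
  · exact Int.natCast_dvd.2 (Nat.dvd_of_mem_primeFactors a)
  · exact Int.natCast_dvd.2 (Nat.dvd_of_mem_primeFactors b)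

theorem cond_eq (h : Data m d L μ M N) {c P : ℤ × ℤ} (hP : Pt L P) {s : ℚ}
    (hR : RM (M P.1 P.2) (N P.1 P.2) c.1 c.2 s) (hmin : Mn c.1 c.2)
    (hD : 4 * c.1 ^ 3 + 27 * c.2 ^ 2 ≠ 0) :
    Cond6 c = ∏ i, ∏ p ∈ Si L P i, p := by
  classical
  unfold Cond6
  rw [← prod_biUnion (si_disj h hP)]
  have hset : (Dsc c).primeFactors.filter (fun p => 5 ≤ p) = univ.biUnion (Si L P) := by
    ext p
    rw [mem_filter, mem_biUnion]
    constructor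
    · rintro ⟨a, a5⟩
      have hpp := Nat.prime_of_mem_primeFactors a
      have hpi : Prime (p : ℤ) := Nat.prime_iff_prime_int.1 hpp
      have h1 := Int.natCast_dvd.2 (Nat.dvd_of_mem_primeFactors a)
      have h2 := ((bad_prime hR hmin hpp a5).1).1 h1
      rw [h.prod] at h2
      obtain ⟨i, -, hi⟩ := (hpi.dvd_finsetProd_iff _).1 h2
      refine ⟨i, mem_univ i, mem_filter.2 ⟨Nat.mem_primeFactors.2 ⟨hpp, ?_, ?_⟩, a5⟩⟩
      · exact Int.natCast_dvd.1 (hpi.dvd_of_dvd_pow hi)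
      · exact Int.natAbs_ne_zero.2 (hP.ne i)
    · rintro ⟨i, -, hi⟩
      obtain ⟨a, a5⟩ := mem_filter.1 hi
      have hpp := Nat.prime_of_mem_primeFactors a
      have h1 : (p : ℤ) ∣ ev L P i := Int.natCast_dvd.2 (Nat.dvd_of_mem_primeFactors a)
      refine ⟨Nat.mem_primeFactors.2 ⟨hpp, ?_, Int.natAbs_ne_zero.2 hD⟩, a5⟩
      refine Int.natCast_dvd.1 (((bad_prime hR hmin hpp a5).1).2 ?_)
      rw [h.prod]
      refine dvd_trans ?_ (dvd_prod_of_mem (fun i => ev L P i ^ μ i) (mem_univ i))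
      exact h1.trans (dvd_pow_self _ (by have := h.mu1 i; omega))
  rw [← hset]
  refine prod_congr rfl fun p hp => ?_
  obtain ⟨a, a5⟩ := mem_filter.1 hp
  have hpp := Nat.prime_of_mem_primeFactors a
  have h1 := Int.natCast_dvd.2 (Nat.dvd_of_mem_primeFactors a)
  rw [if_neg ((bad_prime hR hmin hpp a5).2 h1)]

theorem log_si (P : ℤ × ℤ) (i : Fin (d + 3)) :
    Real.log ((∏ p ∈ Si L P i, p : ℕ) : ℝ) = ∑ p ∈ Si L P i, Real.log (p : ℝ) :=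
  Pool.Agent.TH867.SR.log_prod_primes fun _ hq =>
    Nat.prime_of_mem_primeFactors (mem_filter.1 hq).1

theorem lr_le_si (P : ℤ × ℤ) (i : Fin (d + 3)) :
    lr (va L P i) ≤ Real.log 6 + ∑ p ∈ Si L P i, Real.log (p : ℝ) := by
  classical
  unfold lr Si
  rw [← sum_filter_add_sum_filter_not (va L P i).primeFactors (fun p => 5 ≤ p), add_comm]
  refine add_le_add ?_ le_rfl
  have hsub : (va L P i).primeFactors.filter (fun p => ¬ 5 ≤ p) ⊆ {2, 3} := by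
    intro p hp
    obtain ⟨a, b⟩ := mem_filter.1 hp
    have hpp := Nat.prime_of_mem_primeFactors a
    have h2 := hpp.two_le
    have h4 : p ≠ 4 := by rintro rfl; exact absurd hpp (by decide)
    rw [mem_insert, mem_singleton]
    omega
  refine (sum_le_sum_of_subset_of_nonneg hsub fun p _ _ => log_nn p).trans (le_of_eq ?_)
  rw [sum_pair (by norm_num), ← Real.log_mul (by norm_num) (by norm_num)]
  norm_num

theorem lr_cond (h : Data m d L μ M N) {c P : ℤ × ℤ} (hP : Pt L P) {s : ℚ}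
    (hR : RM (M P.1 P.2) (N P.1 P.2) c.1 c.2 s) (hmin : Mn c.1 c.2)
    (hD : 4 * c.1 ^ 3 + 27 * c.2 ^ 2 ≠ 0) :
    ∑ i, lr (va L P i) ≤ (d + 3) * Real.log 6 + Real.log (Cond6 c) := by
  rw [cond_eq h hP hR hmin hD]
  push_cast
  rw [Real.log_prod (fun i _ => ?_)]
  · have h1 : ∀ i, Real.log (∏ p ∈ Si L P i, (p : ℝ)) = ∑ p ∈ Si L P i, Real.log (p : ℝ) := by
      intro i
      rw [← log_si]
      push_cast
      rfl
    rw [sum_congr rfl fun i _ => h1 i]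
    refine (sum_le_sum fun i _ => lr_le_si (L := L) P i).trans (le_of_eq ?_)
    rw [sum_add_distrib, sum_const, card_univ, Fintype.card_fin, nsmul_eq_mul]
    push_cast
    ring
  · refine prod_ne_zero_iff.2 fun p hp => ?_
    have := (Nat.prime_of_mem_primeFactors (mem_filter.1 hp).1).pos
    exact_mod_cast this.ne'

theorem cond_le (h : Data m d L μ M N) {c P : ℤ × ℤ} (hP : Pt L P) {s : ℚ}
    (hR : RM (M P.1 P.2) (N P.1 P.2) c.1 c.2 s) (hmin : Mn c.1 c.2)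
    (hD : 4 * c.1 ^ 3 + 27 * c.2 ^ 2 ≠ 0) : Cond6 c ≤ (U L * ht P) ^ (d + 3) := by
  rw [cond_eq h hP hR hmin hD]
  calc ∏ i, ∏ p ∈ Si L P i, p ≤ ∏ _i : Fin (d + 3), (U L * ht P) := by
        refine prod_le_prod' fun i _ => ?_
        refine le_trans ?_ (va_le L P i)
        refine Nat.le_of_dvd (va_pos hP i) ?_
        refine dvd_trans (prod_dvd_prod_of_subset _ _ _ (filter_subset _ _)) ?_
        exact Nat.prod_primeFactors_dvd _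
    _ = _ := by rw [prod_const, card_univ, Fintype.card_fin]

theorem prod_disc (h : Data m d L μ M N) {c P : ℤ × ℤ} {s : ℚ}
    (hR : RM (M P.1 P.2) (N P.1 P.2) c.1 c.2 s) :
    (∏ i, (va L P i : ℝ) ^ μ i) ^ 2 ≤ 3 ^ 6 * (Dsc c : ℝ) := by
  have h1 := prod_le_disc hR
  rw [h.prod] at h1
  have e1 : (((∏ i, ev L P i ^ μ i).natAbs : ℕ) : ℝ) = ∏ i, (va L P i : ℝ) ^ μ i := by
    have e0 : (∏ i, ev L P i ^ μ i).natAbs = ∏ i, (va L P i) ^ μ i := by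
      have := map_prod Int.natAbsHom (fun i => ev L P i ^ μ i) univ
      refine this.trans (prod_congr rfl fun i _ => ?_)
      exact Int.natAbs_pow _ _
    rw [e0]
    push_cast
    rfl
  have e2 : |((4 * c.1 ^ 3 + 27 * c.2 ^ 2 : ℤ) : ℝ)| = (Dsc c : ℝ) := by
    unfold Dsc
    rw [Nat.cast_natAbs, Int.cast_abs]
  rw [e1, e2] at h1
  exact h1

end Pool.Agent.H82.RO
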