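import Pool.Agent.TH498.AR.Wt

set_option autoImplicit false

/-!
# Hölder's inequality on dyadic shells
-/

namespace Pool.Agent.H82.RO

open Finset

/-- **Hölder on dyadic shells.** The members of `F` with `y 2^k < h i ≤ y 2^(k+1)` are at most
`G y² 2^(-κ k)`, and the `m`-th moment of `f` over `h i ≤ T` is at most `G T²`. -/
theorem shells (m κ : ℝ) (hm : 1 < m) (hκ : 2 < κ * (m - 1)) : ∃ C : ℝ, 0 < C ∧
    ∀ (ι : Type) (F : Finset ι) (h f : ι → ℝ) (y G : ℝ), 1 ≤ y → 1 ≤ G → (∀ i ∈ F, 0 ≤ f i) →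
    (∀ T : ℝ, 1 ≤ T → ∑ i ∈ F.filter (fun i => h i ≤ T), f i ^ m ≤ G * T ^ 2) →
    (∑ i ∈ F.filter (fun i => h i ≤ y), f i ≤ G * y ^ 2) →
    (∀ k : ℕ, ((F.filter (fun i => y * 2 ^ k < h i ∧ h i ≤ y * 2 ^ (k + 1))).card : ℝ) ≤
      G * y ^ 2 * ((2 : ℝ) ^ (-κ)) ^ k) →
    ∑ i ∈ F, f i ≤ C * G * y ^ 2 := by
  classical
  have hm0 : 0 < m := by linarith
  have hm1 : 0 < 1 / m := by positivity
  have hm2 : 1 / m < 1 := by rw [div_lt_one hm0]; exact hm
  obtain ⟨ρ, hρ⟩ : ∃ ρ : ℝ, ρ = (2 : ℝ) ^ (-κ * (1 - 1 / m) + 2 / m) := ⟨_, rfl⟩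
  have hρ0 : 0 < ρ := by rw [hρ]; positivity
  have hρ1 : ρ < 1 := by
    rw [hρ]
    refine Real.rpow_lt_one_of_one_lt_of_neg (by norm_num) ?_
    have e : -κ * (1 - 1 / m) + 2 / m = -(κ * (m - 1) - 2) / m := by
      field_simp
      ring
    rw [e]
    exact div_neg_of_neg_of_pos (by linarith) hm0
  refine ⟨1 + 4 / (1 - ρ), by
    have : 0 < 1 - ρ := by linarith
    positivity, ?_⟩
  intro ι F h f y G hy hG hf hmom hlow hcount
  have hy0 : 0 < y := by linarith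
  have hG0 : 0 < G := by linarith
  obtain ⟨K, hK⟩ : ∃ K : ℕ, ∀ i ∈ F, h i ≤ y * 2 ^ K := by
    obtain ⟨M, hM⟩ : ∃ M : ℝ, ∀ i ∈ F, h i ≤ M := by
      refine ⟨∑ i ∈ F, |h i|, fun i hi => (le_abs_self _).trans ?_⟩
      exact Finset.single_le_sum (f := fun i => |h i|) (fun j _ => abs_nonneg _) hi
    obtain ⟨K, hK⟩ := pow_unbounded_of_one_lt M (by norm_num : (1 : ℝ) < 2)
    refine ⟨K, fun i hi => ?_⟩
    have : (2 : ℝ) ^ K ≤ y * 2 ^ K := le_mul_of_one_le_left (by positivity) hy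
    linarith [hM i hi]
  set S : ℕ → Finset ι := fun k => F.filter (fun i => y * 2 ^ k < h i ∧ h i ≤ y * 2 ^ (k + 1))
    with hS
  have hcov : F ⊆ F.filter (fun i => h i ≤ y) ∪ (range K).biUnion S := by
    intro i hi
    rw [mem_union, mem_biUnion]
    rcases le_or_gt (h i) y with h1 | h1
    · exact Or.inl (mem_filter.2 ⟨hi, h1⟩)
    right
    have hex : ∃ j : ℕ, h i ≤ y * 2 ^ j := ⟨K, hK i hi⟩
    have hj := Nat.find_spec hex
    have hmin : ∀ k < Nat.find hex, y * 2 ^ k < h i := fun k hk => not_le.1 (Nat.find_min hex hk)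
    have hle : Nat.find hex ≤ K := Nat.find_min' hex (hK i hi)
    have hj0 : Nat.find hex ≠ 0 := by
      intro h0
      rw [h0, pow_zero, mul_one] at hj
      linarith
    obtain ⟨k, hk⟩ : ∃ k, Nat.find hex = k + 1 := ⟨Nat.find hex - 1, by omega⟩
    refine ⟨k, mem_range.2 (by omega), ?_⟩
    rw [hS]
    refine mem_filter.2 ⟨hi, hmin k (by omega), ?_⟩
    rw [← hk]
    exact hj
  have hshell : ∀ k : ℕ, ∑ i ∈ S k, f i ≤ G * y ^ 2 * 4 * ρ ^ k := by
    intro k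
    have hfS : ∀ i ∈ S k, 0 ≤ f i := fun i hi => hf i (mem_filter.1 hi).1
    have h1 := Pool.Agent.TH498.AR.holder_card (S k) f hfS hm
    refine h1.trans ?_
    have c1 := hcount k
    have q0 : (0 : ℝ) < (2 : ℝ) ^ (-κ) := by positivity
    have c2 : ((S k).card : ℝ) ^ (1 - 1 / m) ≤
        (G * y ^ 2 * ((2 : ℝ) ^ (-κ)) ^ k) ^ (1 - 1 / m) :=
      Real.rpow_le_rpow (Nat.cast_nonneg _) c1 (by linarith)
    have c3 : ∑ i ∈ S k, f i ^ m ≤ G * (y * 2 ^ (k + 1)) ^ 2 := by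
      refine le_trans ?_ (hmom (y * 2 ^ (k + 1)) (one_le_mul_of_one_le_of_one_le hy
        (one_le_pow₀ (by norm_num))))
      refine sum_le_sum_of_subset_of_nonneg ?_ fun i hi _ =>
        Real.rpow_nonneg (hf i (mem_filter.1 hi).1) _
      intro i hi
      obtain ⟨a, _, b⟩ := mem_filter.1 hi
      exact mem_filter.2 ⟨a, b⟩
    have c4 : (∑ i ∈ S k, f i ^ m) ^ (1 / m) ≤ (G * (y * 2 ^ (k + 1)) ^ 2) ^ (1 / m) :=
      Real.rpow_le_rpow (sum_nonneg fun i hi => Real.rpow_nonneg (hfS i hi) _) c3 hm1.le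
    have hGy : 0 < G * y ^ 2 := by positivity
    calc ((S k).card : ℝ) ^ (1 - 1 / m) * (∑ i ∈ S k, f i ^ m) ^ (1 / m)
        ≤ (G * y ^ 2 * ((2 : ℝ) ^ (-κ)) ^ k) ^ (1 - 1 / m) *
          (G * (y * 2 ^ (k + 1)) ^ 2) ^ (1 / m) := by
          refine mul_le_mul c2 c4 ?_ (by positivity)
          exact Real.rpow_nonneg (sum_nonneg fun i hi => Real.rpow_nonneg (hfS i hi) _) _
      _ = ((G * y ^ 2) ^ (1 - 1 / m) * (G * y ^ 2) ^ (1 / m)) *
          ((((2 : ℝ) ^ (-κ)) ^ k) ^ (1 - 1 / m) * ((4 : ℝ) ^ k) ^ (1 / m)) *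
            (4 : ℝ) ^ (1 / m) := by
          have e1 : G * (y * 2 ^ (k + 1)) ^ 2 = (G * y ^ 2) * ((4 : ℝ) ^ k * 4) := by
            have : (4 : ℝ) ^ k = (2 ^ k) ^ 2 := by
              rw [← pow_mul, mul_comm, pow_mul]
              norm_num
            rw [this, pow_succ]
            ring
          have e3 : (G * y ^ 2 * ((2 : ℝ) ^ (-κ)) ^ k) ^ (1 - 1 / m) =
              (G * y ^ 2) ^ (1 - 1 / m) * (((2 : ℝ) ^ (-κ)) ^ k) ^ (1 - 1 / m) :=
            Real.mul_rpow hGy.le (by positivity)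
          have e4 : (G * y ^ 2 * ((4 : ℝ) ^ k * 4)) ^ (1 / m) =
              (G * y ^ 2) ^ (1 / m) * ((4 : ℝ) ^ k * 4) ^ (1 / m) :=
            Real.mul_rpow hGy.le (by positivity)
          have e5 : ((4 : ℝ) ^ k * 4) ^ (1 / m) = ((4 : ℝ) ^ k) ^ (1 / m) * (4 : ℝ) ^ (1 / m) :=
            Real.mul_rpow (by positivity) (by norm_num)
          rw [e1, e3, e4, e5]
          ring
      _ = G * y ^ 2 * ρ ^ k * (4 : ℝ) ^ (1 / m) := by
          have e1 : (G * y ^ 2) ^ (1 - 1 / m) * (G * y ^ 2) ^ (1 / m) = G * y ^ 2 := by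
            rw [← Real.rpow_add hGy]
            have : 1 - 1 / m + 1 / m = (1 : ℝ) := by ring
            rw [this, Real.rpow_one]
          have e2 : (((2 : ℝ) ^ (-κ)) ^ k) ^ (1 - 1 / m) * ((4 : ℝ) ^ k) ^ (1 / m) = ρ ^ k := by
            have a1 : ((2 : ℝ) ^ (-κ)) ^ k = (2 : ℝ) ^ (-κ * k) := by
              rw [← Real.rpow_natCast, ← Real.rpow_mul (by norm_num)]
            have a2 : (4 : ℝ) ^ k = (2 : ℝ) ^ ((2 : ℝ) * k) := by
              rw [show (4 : ℝ) = (2 : ℝ) ^ (2 : ℝ) by norm_num, ← Real.rpow_natCast,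
                ← Real.rpow_mul (by norm_num)]
            have a3 : ρ ^ k = (2 : ℝ) ^ ((-κ * (1 - 1 / m) + 2 / m) * k) := by
              rw [hρ, ← Real.rpow_natCast, ← Real.rpow_mul (by norm_num)]
            rw [a1, a2, a3, ← Real.rpow_mul (by norm_num), ← Real.rpow_mul (by norm_num),
              ← Real.rpow_add (by norm_num)]
            congr 1
            ring
          rw [e1, e2]
      _ ≤ G * y ^ 2 * ρ ^ k * 4 := by
          refine mul_le_mul_of_nonneg_left ?_ (by positivity)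
          calc (4 : ℝ) ^ (1 / m) ≤ 4 ^ (1 : ℝ) :=
                Real.rpow_le_rpow_of_exponent_le (by norm_num) hm2.le
            _ = 4 := Real.rpow_one _
      _ = _ := by ring
  have hsum : ∑ i ∈ F, f i ≤ ∑ i ∈ F.filter (fun i => h i ≤ y), f i +
      ∑ k ∈ range K, ∑ i ∈ S k, f i := by
    have h0 : ∀ i ∈ F.filter (fun i => h i ≤ y) ∪ (range K).biUnion S, 0 ≤ f i := by
      intro i hi
      rcases mem_union.1 hi with hi | hi
      · exact hf i (mem_filter.1 hi).1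
      · obtain ⟨k, _, hk⟩ := mem_biUnion.1 hi
        exact hf i (mem_filter.1 hk).1
    refine (sum_le_sum_of_subset_of_nonneg hcov fun i hi _ => h0 i hi).trans ?_
    have hdis : Disjoint (F.filter (fun i => h i ≤ y)) ((range K).biUnion S) := by
      rw [Finset.disjoint_left]
      intro i hi hi'
      obtain ⟨k, _, hk⟩ := mem_biUnion.1 hi'
      have a1 := (mem_filter.1 hi).2
      have a2 := (mem_filter.1 hk).2.1
      have a3 : y ≤ y * 2 ^ k := le_mul_of_one_le_right hy0.le (one_le_pow₀ (by norm_num))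
      linarith
    rw [sum_union hdis]
    refine add_le_add le_rfl (le_of_eq (sum_biUnion ?_))
    intro k _ k' _ hkk'
    rw [Function.onFun, Finset.disjoint_left]
    intro i hi hi'
    have a1 := (mem_filter.1 hi).2
    have a2 := (mem_filter.1 hi').2
    rcases lt_or_gt_of_ne hkk' with hlt | hlt
    · have : (2 : ℝ) ^ (k + 1) ≤ 2 ^ k' := pow_le_pow_right₀ (by norm_num) hlt
      have := mul_le_mul_of_nonneg_left this hy0.le
      linarith [a1.2, a2.1]
    · have : (2 : ℝ) ^ (k' + 1) ≤ 2 ^ k := pow_le_pow_right₀ (by norm_num) hlt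
      have := mul_le_mul_of_nonneg_left this hy0.le
      linarith [a1.1, a2.2]
  have hgeo : ∑ k ∈ range K, ρ ^ k ≤ 1 / (1 - ρ) := by
    rw [one_div, ← tsum_geometric_of_lt_one hρ0.le hρ1]
    exact Summable.sum_le_tsum _ (fun j _ => by positivity)
      (summable_geometric_of_lt_one hρ0.le hρ1)
  calc ∑ i ∈ F, f i ≤ ∑ i ∈ F.filter (fun i => h i ≤ y), f i +
      ∑ k ∈ range K, ∑ i ∈ S k, f i := hsum
    _ ≤ G * y ^ 2 + ∑ k ∈ range K, G * y ^ 2 * 4 * ρ ^ k :=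
        add_le_add hlow (sum_le_sum fun k _ => hshell k)
    _ = G * y ^ 2 + G * y ^ 2 * 4 * ∑ k ∈ range K, ρ ^ k := by rw [mul_sum]
    _ ≤ G * y ^ 2 + G * y ^ 2 * 4 * (1 / (1 - ρ)) := by
        have : 0 ≤ G * y ^ 2 * 4 := by positivity
        linarith [mul_le_mul_of_nonneg_left hgeo this]
    _ = _ := by ring

end Pool.Agent.H82.RO
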