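import Pool.Agent.Y679.Kf.Line
import Pool.Agent.TH498.AR.Neg

set_option autoImplicit false

/-!
# The number of abc triples with a small radical and a given size, uniformly near the typical size
-/

namespace Pool.Agent.H82.RO

open Finset
open Pool.Agent.TH498.AR
open Pool.Agent.Y679.Kf (TriB tri_tall)
open Pool.Agent.TH867.SR (Tr rr rr_sum N3 log_prod_primes)

lemma zz_le {P : Finset ℕ} {Y : ℝ} (hY : 1 ≤ Y) {p : ℕ × ℕ} (a1 : 0 < p.1) (a2 : p.1 ≤ p.2)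
    (a3 : Nat.Coprime p.1 p.2) (a4 : (radP P (p.1 * p.2 * (p.1 + p.2)) : ℝ) ≤ Y) :
    zz Y (Nat.clog 2 p.1) (Nat.clog 2 p.2) ≤ (psi3 P p : ℝ) := by
  obtain ⟨i, hi⟩ : ∃ i, i = Nat.clog 2 p.1 := ⟨_, rfl⟩
  obtain ⟨j, hj⟩ : ∃ j, j = Nat.clog 2 p.2 := ⟨_, rfl⟩
  rw [← hi, ← hj]
  have b1 := clog_le a1
  have b2 := clog_le (a := p.2) (by omega)
  rw [← hi] at b1
  rw [← hj] at b2
  have b3 := coprime3 (P := P) a3
  have b4 : (psi3 P p : ℝ) * (radP P (p.1 * p.2 * (p.1 + p.2)) : ℝ) =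
      (p.1 : ℝ) * p.2 * (p.1 + p.2) := by exact_mod_cast b3
  have b5 : (p.1 : ℝ) * p.2 * (p.1 + p.2) ≤ (psi3 P p : ℝ) * Y := by
    rw [← b4]
    exact mul_le_mul_of_nonneg_left a4 (Nat.cast_nonneg _)
  unfold zz
  rw [div_le_iff₀ (by positivity)]
  have c1 : (0 : ℝ) < p.1 := by exact_mod_cast a1
  have c2 : (0 : ℝ) < p.2 := by exact_mod_cast (by omega : 0 < p.2)
  have b6 : (2 : ℝ) ^ (i + 2 * j) ≤ (2 * p.1) * ((2 * p.2) * (2 * p.2)) := by
    have : (2 : ℝ) ^ (i + 2 * j) = 2 ^ i * (2 ^ j * 2 ^ j) := by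
      rw [pow_add, two_mul, pow_add]
    rw [this]
    refine mul_le_mul b1 (mul_le_mul b2 b2 (by positivity) (by positivity)) (by positivity)
      (by positivity)
  have b7 : (2 * (p.1 : ℝ)) * ((2 * p.2) * (2 * p.2)) ≤ 8 * ((p.1 : ℝ) * p.2 * (p.1 + p.2)) := by
    have : 0 ≤ (p.1 : ℝ) * p.2 * p.1 := by positivity
    nlinarith
  nlinarith

/-- the sum over the boxes with `i ≤ j`, `j ≥ j0` -/
lemma dy_tail (σ : ℝ) (h1 : 2 / 3 < σ) (h2 : σ < 1) : ∃ C : ℝ, 0 < C ∧ ∀ Y V : ℝ, 1 ≤ Y → 0 < V →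
    ∀ j0 J : ℕ, V ≤ 2 ^ j0 →
    ∑ j ∈ (range J).filter (fun j => j0 ≤ j), ∑ i ∈ range (j + 1),
      (2 : ℝ) ^ (i + j) * zz Y i j ^ (-σ) ≤ C * Y ^ σ * V ^ (2 - 3 * σ) := by
  obtain ⟨r, hr⟩ : ∃ r : ℝ, r = (2 : ℝ) ^ (1 - σ) := ⟨_, rfl⟩
  have hr1 : 1 < r := by rw [hr]; exact Real.one_lt_rpow (by norm_num) (by linarith)
  obtain ⟨ρ, hρ⟩ : ∃ ρ : ℝ, ρ = (2 : ℝ) ^ (2 - 3 * σ) := ⟨_, rfl⟩
  have hρ0 : 0 < ρ := by rw [hρ]; positivity
  have hρ1 : ρ < 1 := by rw [hρ]; exact Real.rpow_lt_one_of_one_lt_of_neg (by norm_num) (by linarith)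
  have hr0 : 0 < r / (r - 1) := div_pos (by linarith) (by linarith)
  have hρ' : 0 < 1 - ρ := by linarith
  refine ⟨8 * (r / (r - 1)) / (1 - ρ), by positivity, fun Y V hY hV j0 J hj0 => ?_⟩
  have hY0 : 0 < Y := by linarith
  have e1 : ∀ j ∈ (range J).filter (fun j => j0 ≤ j), ∑ i ∈ range (j + 1),
      (2 : ℝ) ^ (i + j) * (zz Y i j ^ (-σ)) ≤ 8 * Y ^ σ * (r / (r - 1)) * ρ ^ j := by
    intro j _
    have : ∀ i ∈ range (j + 1), (2 : ℝ) ^ (i + j) * (zz Y i j ^ (-σ)) ≤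
        8 * Y ^ σ * ((2 : ℝ) ^ (1 - 2 * σ)) ^ j * r ^ i := by
      intro i _
      have k2 : zz Y i j ^ (-σ) = (8 * Y) ^ σ * ((2 : ℝ) ^ (-σ)) ^ (i + 2 * j) := by
        unfold zz
        rw [Real.div_rpow (by positivity) (by positivity), Real.rpow_neg (by positivity : (0 : ℝ) ≤ 8 * Y),
          div_inv_eq_mul, mul_comm]
        congr 1
        rw [← Real.rpow_natCast, ← Real.rpow_mul (by norm_num), mul_comm, Real.rpow_mul (by norm_num),
          Real.rpow_natCast]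
      rw [k2]
      have k3 : (8 * Y) ^ σ ≤ 8 * Y ^ σ := by
        rw [Real.mul_rpow (by norm_num) hY0.le]
        refine mul_le_mul_of_nonneg_right ?_ (by positivity)
        calc (8 : ℝ) ^ σ ≤ 8 ^ (1 : ℝ) := Real.rpow_le_rpow_of_exponent_le (by norm_num) h2.le
          _ = 8 := Real.rpow_one _
      have k4 : (2 : ℝ) ^ (i + j) * (((2 : ℝ) ^ (-σ)) ^ (i + 2 * j)) =
          ((2 : ℝ) ^ (1 - 2 * σ)) ^ j * r ^ i := by
        rw [hr]
        have a1 : (2 : ℝ) ^ (1 - 2 * σ) = 2 * (2 : ℝ) ^ (-σ) * (2 : ℝ) ^ (-σ) := by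
          have : (1 - 2 * σ : ℝ) = 1 + -σ + -σ := by ring
          rw [this, Real.rpow_add (by norm_num), Real.rpow_add (by norm_num), Real.rpow_one]
        have a2 : (2 : ℝ) ^ (1 - σ) = 2 * (2 : ℝ) ^ (-σ) := by
          have : (1 - σ : ℝ) = 1 + -σ := by ring
          rw [this, Real.rpow_add (by norm_num), Real.rpow_one]
        rw [a1, a2]
        ring
      calc (2 : ℝ) ^ (i + j) * ((8 * Y) ^ σ * ((2 : ℝ) ^ (-σ)) ^ (i + 2 * j))
          = (8 * Y) ^ σ * ((2 : ℝ) ^ (i + j) * (((2 : ℝ) ^ (-σ)) ^ (i + 2 * j))) := by ring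
        _ = (8 * Y) ^ σ * (((2 : ℝ) ^ (1 - 2 * σ)) ^ j * r ^ i) := by rw [k4]
        _ ≤ 8 * Y ^ σ * (((2 : ℝ) ^ (1 - 2 * σ)) ^ j * r ^ i) :=
            mul_le_mul_of_nonneg_right k3 (by positivity)
        _ = _ := by ring
    refine (sum_le_sum this).trans ?_
    rw [← mul_sum]
    have h3 := geom_le hr1 (j + 1)
    have h4 : ((2 : ℝ) ^ (1 - 2 * σ)) ^ j * r ^ j = ρ ^ j := by
      rw [← mul_pow, hr, hρ, ← Real.rpow_add (by norm_num)]
      congr 2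
      ring
    calc 8 * Y ^ σ * ((2 : ℝ) ^ (1 - 2 * σ)) ^ j * ∑ i ∈ range (j + 1), r ^ i
        ≤ 8 * Y ^ σ * ((2 : ℝ) ^ (1 - 2 * σ)) ^ j * (r ^ (j + 1) / (r - 1)) :=
          mul_le_mul_of_nonneg_left h3 (by positivity)
      _ = 8 * Y ^ σ * (r / (r - 1)) * (((2 : ℝ) ^ (1 - 2 * σ)) ^ j * r ^ j) := by
          rw [pow_succ]
          ring
      _ = _ := by rw [h4]
  refine (sum_le_sum e1).trans ?_
  rw [← mul_sum]
  have h3 := geom_tail hρ0 hρ1 j0 J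
  have h4 : ρ ^ j0 ≤ V ^ (2 - 3 * σ) := by
    have : ρ ^ j0 = ((2 : ℝ) ^ j0) ^ (2 - 3 * σ) := by
      rw [hρ, ← Real.rpow_natCast, ← Real.rpow_natCast, ← Real.rpow_mul (by norm_num),
        ← Real.rpow_mul (by norm_num), mul_comm]
    rw [this]
    exact Real.rpow_le_rpow_of_nonpos hV hj0 (by linarith)
  calc 8 * Y ^ σ * (r / (r - 1)) * ∑ i ∈ (range J).filter (fun j => j0 ≤ j), ρ ^ i
      ≤ 8 * Y ^ σ * (r / (r - 1)) * (ρ ^ j0 / (1 - ρ)) :=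
        mul_le_mul_of_nonneg_left h3 (by positivity)
    _ ≤ 8 * Y ^ σ * (r / (r - 1)) * (V ^ (2 - 3 * σ) / (1 - ρ)) := by
        refine mul_le_mul_of_nonneg_left (div_le_div_of_nonneg_right h4 hρ'.le) (by positivity)
    _ = _ := by ring

/-- **Uniform count.** -/
theorem uni (σ : ℝ) (hσ : 2 / 3 < σ) (hσ1 : σ < 1) : ∃ δ C : ℝ, 0 < δ ∧ δ ≤ 1 / 240 ∧ 0 < C ∧
    ∀ η : ℝ, 0 ≤ η → η ≤ δ → TriB (1 / 3 + η) C (2 / 3 - (3 * σ - 2) * η) := by
  classical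
  obtain ⟨K1, K2, hK1, hK2, hK⟩ := box_count σ (by linarith) hσ1
  obtain ⟨N1, N2, hN1, hN2, hN⟩ := neg_count
  obtain ⟨ν, hν, C3, hC3, h3⟩ := tri_tall (1 / 240) (by norm_num)
  obtain ⟨D, hD, hdy⟩ := dy_tail σ hσ hσ1
  obtain ⟨κ, hκ⟩ : ∃ κ : ℝ, κ = 3 * σ - 2 := ⟨_, rfl⟩
  have hκ0 : 0 < κ := by rw [hκ]; linarith
  have hκ1 : κ < 1 := by rw [hκ]; linarith
  rw [← hκ]
  refine ⟨min (1 / 240) ν, C3 + N1 + K1 * D * 2, lt_min (by norm_num) hν, min_le_left _ _,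
    by positivity, fun η hη0 hη X hX F hF => ?_⟩
  have hη1 : η ≤ 1 / 240 := hη.trans (min_le_left _ _)
  have hη2 : η ≤ ν := hη.trans (min_le_right _ _)
  have hX0 : 0 < X := by linarith
  have hκη : κ * η ≤ η := by nlinarith
  have hlogX : 0 ≤ Real.log X := Real.log_nonneg hX
  have hT0 : 0 ≤ X ^ (2 / 3 - κ * η) := by positivity
  -- the tall part
  set F1 := F.filter (fun t => (1 / 3 + 1 / 240) * Real.log X ≤ Real.log (t 2)) with hF1
  set F2 := F.filter (fun t => ¬ (1 / 3 + 1 / 240) * Real.log X ≤ Real.log (t 2)) with hF2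
  have hc1 : (F1.card : ℝ) ≤ C3 * X ^ (2 / 3 - κ * η) := by
    refine (h3 X hX F1 fun t ht => ?_).trans ?_
    · obtain ⟨a, b⟩ := mem_filter.1 ht
      exact ⟨(hF t a).1, (hF t a).2.1, b⟩
    · refine mul_le_mul_of_nonneg_left ?_ hC3.le
      exact Real.rpow_le_rpow_of_exponent_le hX (by linarith)
  -- the pairs
  set E := F2.image (fun t => (t 0, t 1)) with hE
  have hinj : Set.InjOn (fun t : Fin 3 → ℕ => (t 0, t 1)) (F2 : Set (Fin 3 → ℕ)) := by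
    intro s hs t ht hst
    have hs' := (hF s (mem_filter.1 hs).1).1.add
    have ht' := (hF t (mem_filter.1 ht).1).1.add
    simp only [Prod.mk.injEq] at hst
    funext i
    fin_cases i
    · exact hst.1
    · exact hst.2
    · show s 2 = t 2
      omega
  have hcE : F2.card = E.card := (card_image_of_injOn hinj).symm
  have hEm : ∀ p ∈ E, 0 < p.1 ∧ p.1 ≤ p.2 ∧ Nat.Coprime p.1 p.2 ∧
      (radP ∅ (p.1 * p.2 * (p.1 + p.2)) : ℝ) ≤ X ∧
      ((p.1 + p.2 : ℕ) : ℝ) ≤ X ^ (1 / 3 + 1 / 240 : ℝ) ∧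
      X ^ (1 / 3 + η) ≤ ((p.1 + p.2 : ℕ) : ℝ) := by
    intro p hp
    obtain ⟨t, ht, rfl⟩ := mem_image.1 hp
    obtain ⟨htF, htl⟩ := mem_filter.1 ht
    obtain ⟨hT, hrr, hlow⟩ := hF t htF
    have h2 : t 0 + t 1 = t 2 := hT.add
    have hpos2 : 0 < t 2 := by have := hT.pos; omega
    have hp2 : (0 : ℝ) < (t 2 : ℝ) := by exact_mod_cast hpos2
    have hrad : radP ∅ (t 0 * t 1 * (t 0 + t 1)) = ∏ q ∈ (N3 t).primeFactors, q := by
      unfold radP N3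
      rw [h2]
      simp
    refine ⟨hT.pos, hT.le, hT.cop, ?_, ?_, ?_⟩
    · simp only
      rw [hrad]
      have h4 : (0 : ℝ) < ((∏ q ∈ (N3 t).primeFactors, q : ℕ) : ℝ) := by
        exact_mod_cast Finset.prod_pos fun q hq => (Nat.prime_of_mem_primeFactors hq).pos
      rw [← Real.log_le_log_iff h4 hX0,
        log_prod_primes fun q hq => Nat.prime_of_mem_primeFactors hq, rr_sum hT]
      exact hrr
    · simp only
      rw [h2, ← Real.log_le_log_iff hp2 (by positivity), Real.log_rpow hX0]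
      exact (not_le.1 htl).le
    · simp only
      rw [h2, ← Real.log_le_log_iff (by positivity) hp2, Real.log_rpow hX0]
      exact hlow
  obtain ⟨M, hM⟩ : ∃ M : ℕ, M = ⌊X ^ (1 / 10 : ℝ)⌋₊ := ⟨_, rfl⟩
  have hsplit := card_filter_add_card_filter_not (s := E)
    (fun p : ℕ × ℕ => psi3 ∅ p ≤ M ∧ M ^ 2 ≤ p.1)
  -- negligible part
  have hc2 : ((E.filter (fun p : ℕ × ℕ => ¬ (psi3 ∅ p ≤ M ∧ M ^ 2 ≤ p.1))).card : ℝ) ≤
      N1 * X ^ (2 / 3 - κ * η) := by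
    refine (hN ∅ X hX _ fun p hp => ?_).trans ?_
    · obtain ⟨a, b⟩ := mem_filter.1 hp
      obtain ⟨b1, b2, b3, b4, b5, b6⟩ := hEm p a
      refine ⟨b1, by omega, b5, ?_⟩
      rw [← hM]
      exact b
    · rw [card_empty, pow_zero, mul_one]
      refine mul_le_mul_of_nonneg_left ?_ (by linarith)
      exact Real.rpow_le_rpow_of_exponent_le hX (by linarith)
  -- main part
  obtain ⟨V, hV⟩ : ∃ V : ℝ, V = X ^ (1 / 3 + η) / 2 := ⟨_, rfl⟩
  have hV0 : 0 < V := by rw [hV]; positivity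
  obtain ⟨j0, hj0⟩ : ∃ j0 : ℕ, j0 = Nat.clog 2 ⌈V⌉₊ := ⟨_, rfl⟩
  have hVj : V ≤ 2 ^ j0 := by
    refine (Nat.le_ceil V).trans ?_
    rw [hj0]
    exact_mod_cast Nat.le_pow_clog (by norm_num) _
  set G := E.filter (fun p : ℕ × ℕ => psi3 ∅ p ≤ M ∧ M ^ 2 ≤ p.1) with hG
  obtain ⟨J, hJ⟩ : ∃ J : ℕ, J = (G.image (fun p => Nat.clog 2 p.2)).sup id + 1 := ⟨_, rfl⟩
  have hbox : ∀ i j : ℕ, ((G.filter (fun p => Nat.clog 2 p.1 = i ∧ Nat.clog 2 p.2 = j)).card : ℝ) ≤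
      K1 * ((2 : ℝ) ^ (i + j) * zz X i j ^ (-σ)) := by
    intro i j
    have hz := zz_pos hX i j
    rcases (G.filter (fun p => Nat.clog 2 p.1 = i ∧ Nat.clog 2 p.2 = j)).eq_empty_or_nonempty
      with he | ⟨p0, hp0⟩
    · rw [he, card_empty]
      have : 0 ≤ K1 := by linarith
      push_cast
      positivity
    have hMB : M ^ 2 ≤ 2 ^ j := by
      obtain ⟨hpE, -, hpj⟩ := mem_filter.1 hp0
      obtain ⟨a, b, c⟩ := mem_filter.1 hpE
      have := (hEm p0 a).2.1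
      rw [← hpj]
      exact (c.trans this).trans (Nat.le_pow_clog (by norm_num) _)
    have := hK ∅ (2 ^ i) (2 ^ j) M (zz X i j) hz hMB
      (G.filter (fun p => Nat.clog 2 p.1 = i ∧ Nat.clog 2 p.2 = j)) (by
        intro p hp
        obtain ⟨hpG, hpi, hpj⟩ := mem_filter.1 hp
        obtain ⟨a, b, c⟩ := mem_filter.1 hpG
        obtain ⟨b1, b2, b3, b4, b5, b6⟩ := hEm p a
        refine ⟨mem_Icc.2 ⟨b1, ?_⟩, mem_Icc.2 ⟨by omega, ?_⟩, b3, ?_, b⟩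
        · rw [← hpi]; exact Nat.le_pow_clog (by norm_num) _
        · rw [← hpj]; exact Nat.le_pow_clog (by norm_num) _
        · rw [← hpi, ← hpj]
          exact zz_le hX b1 b2 b3 b4)
    rw [card_empty, pow_zero, mul_one] at this
    refine this.trans (le_of_eq ?_)
    rw [pow_add]
    push_cast
    ring
  have hcG : (G.card : ℝ) ≤ ∑ j ∈ (range J).filter (fun j => j0 ≤ j), ∑ i ∈ range (j + 1),
      K1 * ((2 : ℝ) ^ (i + j) * zz X i j ^ (-σ)) := by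
    have h1 : ∀ p ∈ G, Nat.clog 2 p.2 ∈ (range J).filter (fun j => j0 ≤ j) := by
      intro p hp
      rw [mem_filter, mem_range, hJ, Nat.lt_succ_iff]
      refine ⟨Finset.le_sup (f := id) (mem_image_of_mem _ hp), ?_⟩
      rw [hj0]
      refine Nat.clog_mono_right 2 (Nat.ceil_le.2 ?_)
      obtain ⟨b1, b2, b3, b4, b5, b6⟩ := hEm p (mem_filter.1 hp).1
      have : ((p.1 + p.2 : ℕ) : ℝ) ≤ 2 * (p.2 : ℝ) := by exact_mod_cast (by omega : p.1 + p.2 ≤ 2 * p.2)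
      rw [hV]
      linarith
    have h2 : G.card = ∑ j ∈ (range J).filter (fun j => j0 ≤ j), ∑ i ∈ range (j + 1),
        (G.filter (fun p => Nat.clog 2 p.1 = i ∧ Nat.clog 2 p.2 = j)).card := by
      rw [card_eq_sum_card_fiberwise h1]
      refine sum_congr rfl fun j _ => ?_
      have h2 : ∀ p ∈ G.filter (fun p => Nat.clog 2 p.2 = j), Nat.clog 2 p.1 ∈ range (j + 1) := by
        intro p hp
        obtain ⟨hpG, hpj⟩ := mem_filter.1 hp
        rw [mem_range, Nat.lt_succ_iff, ← hpj]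
        exact Nat.clog_mono_right 2 (hEm p (mem_filter.1 hpG).1).2.1
      rw [card_eq_sum_card_fiberwise h2]
      refine sum_congr rfl fun i _ => ?_
      rw [filter_filter]
      congr 1
      refine filter_congr fun p _ => ?_
      constructor
      · rintro ⟨a, b⟩; exact ⟨b, a⟩
      · rintro ⟨a, b⟩; exact ⟨b, a⟩
    rw [h2]
    push_cast
    exact sum_le_sum fun j _ => sum_le_sum fun i _ => hbox i j
  have hc3 : (G.card : ℝ) ≤ K1 * D * 2 * X ^ (2 / 3 - κ * η) := by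
    refine hcG.trans ?_
    have h5 := hdy X V hX hV0 j0 J hVj
    have h6 : ∑ j ∈ (range J).filter (fun j => j0 ≤ j), ∑ i ∈ range (j + 1),
        K1 * ((2 : ℝ) ^ (i + j) * zz X i j ^ (-σ)) =
        K1 * ∑ j ∈ (range J).filter (fun j => j0 ≤ j), ∑ i ∈ range (j + 1),
          ((2 : ℝ) ^ (i + j) * zz X i j ^ (-σ)) := by
      rw [mul_sum]
      exact sum_congr rfl fun j _ => by rw [mul_sum]
    rw [h6]
    have h7 : X ^ σ * V ^ (2 - 3 * σ) ≤ 2 * X ^ (2 / 3 - κ * η) := by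
      have e1 : V ^ (2 - 3 * σ) = X ^ ((1 / 3 + η) * (2 - 3 * σ)) * 2 ^ κ := by
        rw [hV, Real.div_rpow (by positivity) (by norm_num), ← Real.rpow_mul hX0.le, div_eq_mul_inv,
          ← Real.rpow_neg (by norm_num)]
        congr 2
        rw [hκ]
        ring
      have e2 : X ^ σ * X ^ ((1 / 3 + η) * (2 - 3 * σ)) = X ^ (2 / 3 - κ * η) := by
        rw [← Real.rpow_add hX0]
        congr 1
        rw [hκ]
        ring
      have e3 : (2 : ℝ) ^ κ ≤ 2 := by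
        calc (2 : ℝ) ^ κ ≤ 2 ^ (1 : ℝ) := Real.rpow_le_rpow_of_exponent_le (by norm_num) hκ1.le
          _ = 2 := Real.rpow_one _
      rw [e1, ← mul_assoc, e2, mul_comm]
      exact mul_le_mul_of_nonneg_right e3 hT0
    have hK10 : 0 ≤ K1 := by linarith
    calc K1 * ∑ j ∈ (range J).filter (fun j => j0 ≤ j), ∑ i ∈ range (j + 1),
          ((2 : ℝ) ^ (i + j) * zz X i j ^ (-σ)) ≤ K1 * (D * X ^ σ * V ^ (2 - 3 * σ)) :=
          mul_le_mul_of_nonneg_left h5 hK10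
      _ = K1 * D * (X ^ σ * V ^ (2 - 3 * σ)) := by ring
      _ ≤ K1 * D * (2 * X ^ (2 / 3 - κ * η)) := mul_le_mul_of_nonneg_left h7 (by positivity)
      _ = _ := by ring
  have hF12 : F.card = F1.card + F2.card := (card_filter_add_card_filter_not _).symm
  have hfin : (F.card : ℝ) = F1.card + (G.card +
      (E.filter (fun p : ℕ × ℕ => ¬ (psi3 ∅ p ≤ M ∧ M ^ 2 ≤ p.1))).card) := by
    rw [hF12, hcE, ← hsplit]
    push_cast
    ring
  rw [hfin]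
  linarith

end Pool.Agent.H82.RO
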