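import Pool.Agent.H82.RO.Uni
import Pool.Agent.H82.RO.Mom

set_option autoImplicit false

/-!
# Weighted sums over the points of the projective line, ordered by the radical of linear forms
-/

namespace Pool.Agent.H82.RO

open Finset
open Pool.Agent.TH867.SQ (lr)
open Pool.Agent.TH867.QF (Fm va ev Rs Rs_pos Pt U U_pos ht ht_pos)
open Pool.Agent.Y679.Kf (TriB three_tri three_light line_tot line_tall KL)

/-- **The weighted count by radical.** -/
theorem weighted_rad {d : ℕ} (L : Fm (d + 3)) (m : ℝ) (hm : 3 < m) (f : ℤ × ℤ → ℝ)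
    (hf : ∀ P, 0 ≤ f P) (G : ℝ)
    (hmom : ∀ T : ℝ, 1 ≤ T → ∀ F : Finset (ℤ × ℤ), (∀ P ∈ F, Pt L P ∧ (ht P : ℝ) ≤ T) →
      ∑ P ∈ F, f P ^ m ≤ G * T ^ 2 ∧ ∑ P ∈ F, f P ≤ G * T ^ 2)
    (hpt : ∀ ε : ℝ, 0 < ε → ∃ C : ℝ, ∀ X : ℝ, 1 ≤ X → ∀ P, Pt L P →
      ∑ i, lr (va L P i) ≤ Real.log X → f P ≤ C * X ^ ε) :
    ∃ C : ℝ, 0 < C ∧ ∀ X : ℝ, 1 ≤ X → ∀ F : Finset (ℤ × ℤ),
      (∀ P ∈ F, Pt L P ∧ ∑ i, lr (va L P i) ≤ Real.log X) →
      ∑ P ∈ F, f P ≤ C * X ^ (2 / ((d : ℝ) + 3)) := by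
  classical
  have hm1 : 0 < m - 1 := by linarith
  obtain ⟨κ, hκ⟩ : ∃ κ : ℝ, κ = (2 / (m - 1) + 1) / 2 := ⟨_, rfl⟩
  have hm2 : 2 / (m - 1) < 1 := by rw [div_lt_one hm1]; linarith
  have hκ0 : 2 / (m - 1) < κ := by rw [hκ]; linarith
  have hκ1 : κ < 1 := by rw [hκ]; linarith
  have hκp : 0 < κ := lt_trans (by positivity) hκ0
  have hκm : 2 < κ * (m - 1) := by rwa [div_lt_iff₀ hm1] at hκ0
  obtain ⟨δ0, C1, hδ0, hδ01, hC1, huni⟩ := uni ((κ + 2) / 3) (by linarith) (by linarith)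
  have hκe : 3 * ((κ + 2) / 3) - 2 = κ := by ring
  rw [hκe] at huni
  obtain ⟨C2, hC2, hsh⟩ := shells m κ (by linarith) hκm
  obtain ⟨Ct, hCt, htot⟩ := line_tot L
  have hd3 : (0 : ℝ) < (d : ℝ) + 3 := by positivity
  obtain ⟨δ, hδ⟩ : ∃ δ : ℝ, δ = 3 * δ0 / ((d : ℝ) + 3) := ⟨_, rfl⟩
  have hδp : 0 < δ := by rw [hδ]; positivity
  obtain ⟨ν, hν, hν2, Cl, hCl, htall⟩ := line_tall L δ hδp
  obtain ⟨Cε, hCε⟩ := hpt ν hν
  obtain ⟨R, hR⟩ : ∃ R : ℝ, R = (Rs L : ℝ) := ⟨_, rfl⟩
  have hR1 : 1 ≤ R := by rw [hR]; exact_mod_cast Rs_pos L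
  have hR0 : 0 < R := by linarith
  have hlogR : 0 ≤ Real.log R := Real.log_nonneg hR1
  obtain ⟨K', hK'⟩ : ∃ K' : ℝ, K' = |KL L| + 2 * Real.log R := ⟨_, rfl⟩
  have hK'0 : 0 ≤ K' := by rw [hK']; positivity
  obtain ⟨A, hA⟩ : ∃ A : ℝ, A = (((d + 3 : ℕ) : ℝ) ^ 3 + 1) * (2 * (36 * (C1 * R ^ 3))) := ⟨_, rfl⟩
  have hA0 : 0 < A := by rw [hA]; positivity
  obtain ⟨B, hB⟩ : ∃ B : ℝ, B = 1 + |G| + (Ct + A) * Real.exp (κ * K') := ⟨_, rfl⟩
  have hE0 : 0 < Real.exp (κ * K') := Real.exp_pos _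
  have hB1 : 1 ≤ B := by
    rw [hB]
    have := abs_nonneg G
    have : 0 ≤ (Ct + A) * Real.exp (κ * K') := by positivity
    linarith
  have hBG : G ≤ B := by
    rw [hB]
    have := le_abs_self G
    have : 0 ≤ (Ct + A) * Real.exp (κ * K') := by positivity
    linarith
  have hBC : (Ct + A) * Real.exp (κ * K') ≤ B := by
    rw [hB]
    have := abs_nonneg G
    linarith
  refine ⟨Cl * |Cε| + C2 * B, by positivity, fun X hX F hF => ?_⟩
  have hX0 : 0 < X := by linarith
  have hlogX : 0 ≤ Real.log X := Real.log_nonneg hX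
  obtain ⟨y, hy⟩ : ∃ y : ℝ, y = X ^ (1 / ((d : ℝ) + 3)) := ⟨_, rfl⟩
  have hy1 : 1 ≤ y := by rw [hy]; exact Real.one_le_rpow hX (by positivity)
  have hy0 : 0 < y := by linarith
  have hy2 : y ^ 2 = X ^ (2 / ((d : ℝ) + 3)) := by
    rw [hy, ← Real.rpow_natCast, ← Real.rpow_mul hX0.le]
    congr 1
    push_cast
    ring
  have hlogy : Real.log y = Real.log X / ((d : ℝ) + 3) := by
    rw [hy, Real.log_rpow hX0]
    ring
  set F1 := F.filter (fun P => (1 / ((d : ℝ) + 3) + δ) * Real.log X ≤ Real.log (ht P)) with hF1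
  set F2 := F.filter (fun P => ¬ (1 / ((d : ℝ) + 3) + δ) * Real.log X ≤ Real.log (ht P)) with hF2
  have hsplit : ∑ P ∈ F, f P = ∑ P ∈ F1, f P + ∑ P ∈ F2, f P :=
    (sum_filter_add_sum_filter_not _ _ _).symm
  -- the tall points
  have h1 : ∑ P ∈ F1, f P ≤ Cl * |Cε| * X ^ (2 / ((d : ℝ) + 3)) := by
    have c1 := htall X hX F1 (fun P hP => by
      obtain ⟨a, b⟩ := mem_filter.1 hP
      exact ⟨(hF P a).1, (hF P a).2, b⟩)
    have c2 : ∀ P ∈ F1, f P ≤ |Cε| * X ^ ν := by
      intro P hP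
      obtain ⟨a, b⟩ := mem_filter.1 hP
      refine (hCε X hX P (hF P a).1 (hF P a).2).trans ?_
      exact mul_le_mul_of_nonneg_right (le_abs_self _) (by positivity)
    calc ∑ P ∈ F1, f P ≤ ∑ P ∈ F1, |Cε| * X ^ ν := sum_le_sum c2
      _ = F1.card * (|Cε| * X ^ ν) := by rw [sum_const, nsmul_eq_mul]
      _ ≤ (Cl * X ^ (2 / ((d : ℝ) + 3) - ν)) * (|Cε| * X ^ ν) :=
          mul_le_mul_of_nonneg_right c1 (by positivity)
      _ = Cl * |Cε| * (X ^ (2 / ((d : ℝ) + 3) - ν) * X ^ ν) := by ring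
      _ = _ := by
          rw [← Real.rpow_add hX0]
          congr 2
          ring
  -- the others
  have hcount : ∀ k : ℕ, ((F2.filter (fun P => y * 2 ^ k < (ht P : ℝ) ∧
      (ht P : ℝ) ≤ y * 2 ^ (k + 1))).card : ℝ) ≤ B * y ^ 2 * ((2 : ℝ) ^ (-κ)) ^ k := by
    intro k
    obtain ⟨S, hS⟩ : ∃ S, S = F2.filter (fun P => y * 2 ^ k < (ht P : ℝ) ∧
      (ht P : ℝ) ≤ y * 2 ^ (k + 1)) := ⟨_, rfl⟩
    rw [← hS]
    have hq : ((2 : ℝ) ^ (-κ)) ^ k = Real.exp (-(κ * (k * Real.log 2))) := by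
      rw [← Real.rpow_natCast, ← Real.rpow_mul (by norm_num), Real.rpow_def_of_pos (by norm_num)]
      congr 1
      ring
    rw [hq]
    rcases S.eq_empty_or_nonempty with he | ⟨P0, hP0⟩
    · rw [he, card_empty]
      push_cast
      positivity
    have hmem : ∀ P ∈ S, P ∈ F ∧ Pt L P ∧ ∑ i, lr (va L P i) ≤ Real.log X ∧
        Real.log y + k * Real.log 2 ≤ Real.log (ht P) ∧
        Real.log (ht P) ≤ (1 / ((d : ℝ) + 3) + δ) * Real.log X := by
      intro P hP
      rw [hS] at hP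
      obtain ⟨a, b, c⟩ := mem_filter.1 hP
      obtain ⟨a1, a2⟩ := mem_filter.1 a
      refine ⟨a1, (hF P a1).1, (hF P a1).2, ?_, (not_le.1 a2).le⟩
      have e : Real.log y + k * Real.log 2 = Real.log (y * 2 ^ k) := by
        rw [Real.log_mul hy0.ne' (by positivity), Real.log_pow]
      rw [e]
      exact Real.log_le_log (by positivity) b.le
    have hk : (k : ℝ) * Real.log 2 ≤ δ * Real.log X := by
      obtain ⟨-, -, -, a, b⟩ := hmem P0 hP0
      rw [hlogy] at a
      have e : (1 / ((d : ℝ) + 3) + δ) * Real.log X = Real.log X / ((d : ℝ) + 3) +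
        δ * Real.log X := by ring
      linarith
    have hy2p : 0 < y ^ 2 := by positivity
    rcases le_or_gt ((k : ℝ) * Real.log 2) K' with hcase | hcase
    · have c1 := htot X hX S (fun P hP => ⟨(hmem P hP).2.1, (hmem P hP).2.2.1⟩)
      rw [← hy2] at c1
      have c2 : 1 ≤ Real.exp (κ * K') * Real.exp (-(κ * (k * Real.log 2))) := by
        rw [← Real.exp_add]
        refine Real.one_le_exp ?_
        have := mul_le_mul_of_nonneg_left hcase hκp.le
        linarith
      calc (S.card : ℝ) ≤ Ct * y ^ 2 := c1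
        _ ≤ (Ct * y ^ 2) * (Real.exp (κ * K') * Real.exp (-(κ * (k * Real.log 2)))) :=
            le_mul_of_one_le_right (by positivity) c2
        _ ≤ ((Ct + A) * Real.exp (κ * K')) * y ^ 2 * Real.exp (-(κ * (k * Real.log 2))) := by
            have : 0 ≤ A * Real.exp (κ * K') * y ^ 2 * Real.exp (-(κ * (k * Real.log 2))) := by
              positivity
            linarith
        _ ≤ B * y ^ 2 * Real.exp (-(κ * (k * Real.log 2))) := by
            refine mul_le_mul_of_nonneg_right ?_ (Real.exp_pos _).le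
            exact mul_le_mul_of_nonneg_right hBC hy2p.le
    · have hlogXp : 0 < Real.log X := by
        by_contra hcon
        have : Real.log X = 0 := le_antisymm (not_lt.1 hcon) hlogX
        rw [this, mul_zero] at hk
        linarith
      obtain ⟨η, hη⟩ : ∃ η : ℝ, η = (k * Real.log 2 - K') * ((d : ℝ) + 3) / (3 * Real.log X) :=
        ⟨_, rfl⟩
      have hηX : 3 * η / ((d : ℝ) + 3) * Real.log X = k * Real.log 2 - K' := by
        rw [hη]
        field_simp
      have hη0 : 0 ≤ η := by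
        rw [hη]
        have : 0 ≤ (k : ℝ) * Real.log 2 - K' := by linarith
        positivity
      have hηδ : η ≤ δ0 := by
        have e1 : 3 * η / ((d : ℝ) + 3) * Real.log X ≤ 3 * δ0 / ((d : ℝ) + 3) * Real.log X := by
          rw [hηX, ← hδ]
          linarith
        have e2 := le_of_mul_le_mul_right e1 hlogXp
        rw [div_le_div_iff_of_pos_right hd3] at e2
        linarith
      have hT := huni η hη0 hηδ
      have hκη : κ * η ≤ η := by nlinarith
      have c1 := three_tri L (β := 1 / 3 + η) (by linarith) hC1 hT (X ^ (3 / ((d : ℝ) + 3)))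
        (Real.one_le_rpow hX (by positivity)) S (fun P hP => by
          obtain ⟨-, g1, g2, g3, -⟩ := hmem P hP
          refine ⟨g1, ?_, ?_⟩
          · obtain ⟨a, b, c, k1, k2, k3, k4⟩ := three_light (fun i => lr (va L P i))
            refine ⟨a, b, c, k1, k2, k3, k4.trans ?_⟩
            rw [Real.log_rpow hX0]
            exact mul_le_mul_of_nonneg_left g2 (by positivity)
          · refine le_trans ?_ (le_max_right _ _)
            rw [← hR, Real.log_rpow hX0]
            have e1 : (1 / 3 + η) * (3 / ((d : ℝ) + 3) * Real.log X + 3 * Real.log R) =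
                Real.log X / ((d : ℝ) + 3) + 3 * η / ((d : ℝ) + 3) * Real.log X +
                (1 + 3 * η) * Real.log R := by
              field_simp
            rw [e1, hηX]
            have e2 := le_abs_self (KL L)
            have e3 : (1 + 3 * η) * Real.log R ≤ 2 * Real.log R :=
              mul_le_mul_of_nonneg_right (by linarith) hlogR
            rw [hlogy] at g3
            linarith)
      rw [← hR] at c1
      have c2 : (X ^ (3 / ((d : ℝ) + 3)) * R ^ 3) ^ ((2 : ℝ) / 3 - κ * η) ≤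
          y ^ 2 * (Real.exp (κ * K') * Real.exp (-(κ * (k * Real.log 2)))) * R ^ 3 := by
        rw [Real.mul_rpow (by positivity) (by positivity), ← Real.rpow_mul hX0.le]
        have e1 : X ^ (3 / ((d : ℝ) + 3) * (2 / 3 - κ * η)) =
            y ^ 2 * (Real.exp (κ * K') * Real.exp (-(κ * (k * Real.log 2)))) := by
          rw [hy2, ← Real.exp_add, Real.rpow_def_of_pos hX0, Real.rpow_def_of_pos hX0,
            ← Real.exp_add]
          congr 1
          have : κ * K' + -(κ * (k * Real.log 2)) = -(κ * (k * Real.log 2 - K')) := by ring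
          rw [this, ← hηX]
          field_simp
          ring
        have e2 : (R ^ 3) ^ ((2 : ℝ) / 3 - κ * η) ≤ R ^ 3 := by
          calc (R ^ 3) ^ ((2 : ℝ) / 3 - κ * η) ≤ (R ^ 3) ^ (1 : ℝ) := by
                refine Real.rpow_le_rpow_of_exponent_le (one_le_pow₀ hR1) ?_
                have : 0 ≤ κ * η := by positivity
                linarith
            _ = R ^ 3 := Real.rpow_one _
        rw [e1]
        exact mul_le_mul_of_nonneg_left e2 (by positivity)
      calc (S.card : ℝ) ≤ (((d + 3 : ℕ) : ℝ) ^ 3 + 1) * (2 * (36 * (C1 *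
            (X ^ (3 / ((d : ℝ) + 3)) * R ^ 3) ^ ((2 : ℝ) / 3 - κ * η)))) := c1
        _ ≤ (((d + 3 : ℕ) : ℝ) ^ 3 + 1) * (2 * (36 * (C1 *
            (y ^ 2 * (Real.exp (κ * K') * Real.exp (-(κ * (k * Real.log 2)))) * R ^ 3)))) := by
            refine mul_le_mul_of_nonneg_left ?_ (by positivity)
            refine mul_le_mul_of_nonneg_left ?_ (by norm_num)
            refine mul_le_mul_of_nonneg_left ?_ (by norm_num)
            exact mul_le_mul_of_nonneg_left c2 hC1.le
        _ = (A * Real.exp (κ * K')) * y ^ 2 * Real.exp (-(κ * (k * Real.log 2))) := by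
            rw [hA]
            ring
        _ ≤ ((Ct + A) * Real.exp (κ * K')) * y ^ 2 * Real.exp (-(κ * (k * Real.log 2))) := by
            have : 0 ≤ Ct * Real.exp (κ * K') * y ^ 2 * Real.exp (-(κ * (k * Real.log 2))) := by
              positivity
            linarith
        _ ≤ B * y ^ 2 * Real.exp (-(κ * (k * Real.log 2))) := by
            refine mul_le_mul_of_nonneg_right ?_ (Real.exp_pos _).le
            exact mul_le_mul_of_nonneg_right hBC hy2p.le
  have h2 : ∑ P ∈ F2, f P ≤ C2 * B * y ^ 2 := by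
    refine hsh (ℤ × ℤ) F2 (fun P => (ht P : ℝ)) f y B hy1 hB1 (fun P _ => hf P) ?_ ?_ hcount
    · intro T hT
      refine ((hmom T hT _ fun P hP => ?_).1).trans ?_
      · obtain ⟨a, b⟩ := mem_filter.1 hP
        exact ⟨(hF P (mem_filter.1 a).1).1, b⟩
      · exact mul_le_mul_of_nonneg_right hBG (by positivity)
    · refine ((hmom y hy1 _ fun P hP => ?_).2).trans ?_
      · obtain ⟨a, b⟩ := mem_filter.1 hP
        exact ⟨(hF P (mem_filter.1 a).1).1, b⟩
      · exact mul_le_mul_of_nonneg_right hBG (by positivity)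
  rw [hsplit, add_mul, ← hy2]
  rw [← hy2] at h1
  linarith

end Pool.Agent.H82.RO
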